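import Pool.Agent.H67.TS.TypC

/-!
# CellA (case analysis, ~150 lines): the cell inequality in terms of `u, v, A, B, C`

`u + v = A + B + C`, all of `A, B, C, u, v > 0`.  Write `u₁ = u - A`, `u₂ = u - B`, `u₃ = u - C`, `v₁ = v - A`, ...
The normalised area is
`PU u A B C = psq u - psq u₁ - psq u₂ - psq u₃ + psq (u-A-B) + psq (u-A-C) + psq (u-B-C) - psq (u-A-B-C)`
(the last one is `0` since `u - A - B - C = -v < 0`), and the charge is `NU`.

Signs: if `u₁ ≤ 0` then `v₂ = A + C - u = C - u₁ > 0` and `v₃ = B - u₁ > 0` (and cyclically, and with `u,v` exchanged).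
Let `T = 8 M²`, `0 ≤ r ≤ M`.  `f T s ≤ s²`, `f T s ≤ T`, `f T s ≥ 0` (as `T ≥ 0`), and for `0 ≤ s ≤ t`: `f T t - f T s ≤ t² - s²`.
`NU = L * PU + 1/8 * (g₁ + g₂ + g₃)`,
`g₁ = [0<u₁ ∧ 0<v₂ ∧ 0<v₃] f(u₁) + [0<v₁ ∧ 0<u₂ ∧ 0<u₃] f(v₁) - [u₂<0 ∧ u₃<0] f(u) - [v₂<0 ∧ v₃<0] f(v)`, etc.

Cases by the signs of `u₁,u₂,u₃` (each `≤ 0` or `> 0`):
* none positive: (then all `v_i > 0`) `PU = u²` (all other `psq` vanish), `NU ≥ L u² - 3/8 f(u) ≥ (L-3/8) u² ≥ r²` (`tri`).
* exactly one, say `u₁ > 0` (`u₂, u₃ ≤ 0`, then `v₁, v₂, v₃ > 0`: from `u₂ ≤ 0`: `v₁, v₃ > 0`; from `u₃ ≤ 0`: `v₂ > 0`):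
  `PU = u² - u₁²`, charges: `+ f(u₁)`, `- f(u)` at most once; `NU ≥ L (u²-u₁²) - (f u - f u₁)/8 ≥ (L-1/8)(u² - u₁²)` (`trap`).
* exactly two, say `u₁, u₂ > 0`, `u₃ ≤ 0` (then `v₁, v₂ > 0`); `v₃ = A + B - u`.
   - `v₃ ≤ 0`: `PU = u² - u₁² - u₂² + (u-A-B)² = 2AB`, all charges are `0` or nonnegative (there is no negative one: `u₂<0∧u₃<0`,
     `v₂<0 ∧ v₃<0` etc. all fail): `para`.
   - `v₃ > 0`: `PU = u² - u₁² - u₂² = 2AB - τ²`, `τ = v₃`; charges `f(u₁) + f(u₂) + f(v₃)`: if each of `u₁², u₂², v₃²` is `≤ T` this is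
     `penta` (with `A - τ = u₂`, `B - τ = u₁`, `A + B - τ = u`); if one of them is `> T` the charges are `≥ T/8 ≥ M² ≥ r²` and `PU ≥ 0`
     (`2AB - τ² ≥ 0` as `τ ≤ A, B`).
* all three positive: by the `u ↔ v` symmetry (`PU u A B C = PU v A B C`: third difference of `s ↦ (s)₊²` versus `s ↦ (-s)₊²`,
  because `s² = (s)₊² + (-s)₊²` has zero third difference; and the charges are symmetric) we may assume that all `v_i > 0` too (otherwise apply the
  former cases with `u` and `v` exchanged). Then `u - A - B = -v₃ < 0` etc., `PU = u² - u₁² - u₂² - u₃²`, charges = all six `f`'s: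
  if all six squares are `≤ T` this is `hexa`; else the charges are `≥ T / 8 ≥ r²` and `PU ≥ 0`: `u = u₁ + u₂ + v₃`, `B = u₁ + v₃ = u₃ + v₁`
  gives `u₃ ≤ u₁ + v₃`, and `A = u₂ + v₃ = u₃ + v₂` gives `u₃ ≤ u₂ + v₃`, so
  `u₃² ≤ (u₁+v₃)(u₂+v₃) = u₁u₂ + (u₁+u₂)v₃ + v₃² ≤ 2u₁u₂ + 2(u₁+u₂)v₃ + v₃² = u² - u₁² - u₂²`.)
Suggestion: prove first the four type lemmas for `NU` with hypotheses on signs, then permute `A, B, C` (`NU`, `PU` are symmetric: `PU_swap`, ...)
or brute force: `simp only [NU, ind, psq, max_eq_left.., if_pos, if_neg]` in each sign case.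
-/

set_option autoImplicit false

namespace Pool.H67.TS

/-- normalised area in terms of `u` and the widths -/
noncomputable def PU (u A B C : ℝ) : ℝ :=
  psq u - psq (u - A) - psq (u - B) - psq (u - C)
    + psq (u - A - B) + psq (u - A - C) + psq (u - B - C) - psq (u - A - B - C)

/-- charge of the two edges of one family -/
noncomputable def GU (T u v A B C : ℝ) : ℝ :=
  (if 0 < v - B ∧ 0 < v - C ∧ 0 < u - A then f T (u - A) else 0)
    - (if v - B < 0 ∧ v - C < 0 ∧ 0 < v then f T v else 0)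
    - (if u - C < 0 ∧ u - B < 0 ∧ 0 < u then f T u else 0)
    + (if 0 < u - C ∧ 0 < u - B ∧ 0 < v - A then f T (v - A) else 0)

/-- total charge -/
noncomputable def NU (L T u v A B C : ℝ) : ℝ :=
  L * PU u A B C + 1 / 8 * (GU T u v A B C + GU T u v B A C + GU T u v C A B)

lemma CellA_psq_pos {s : ℝ} (h : 0 ≤ s) : psq s = s ^ 2 := by
  unfold psq
  rw [max_eq_left h]

lemma CellA_psq_neg {s : ℝ} (h : s ≤ 0) : psq s = 0 := by
  unfold psq
  rw [max_eq_right h]
  norm_num

lemma CellA_psq_flip (s : ℝ) : psq (-s) = s ^ 2 - psq s := by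
  rcases le_total 0 s with h | h
  · rw [CellA_psq_pos h, CellA_psq_neg (by linarith)]
    ring
  · rw [CellA_psq_neg h, CellA_psq_pos (by linarith)]
    ring

lemma CellA_f_nonneg {T : ℝ} (hT : 0 ≤ T) (s : ℝ) : 0 ≤ f T s := by
  unfold f
  exact le_min (sq_nonneg s) hT

lemma CellA_f_le (T s : ℝ) : f T s ≤ s ^ 2 := min_le_left _ _

lemma CellA_f_eq {T s : ℝ} (h : s ^ 2 ≤ T) : f T s = s ^ 2 := min_eq_left h

lemma CellA_f_top {T s : ℝ} (h : T ≤ s ^ 2) : f T s = T := min_eq_right h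

lemma CellA_f_diff {T s t : ℝ} (hs : 0 ≤ s) (hst : s ≤ t) : f T t - f T s ≤ t ^ 2 - s ^ 2 := by
  have h1 : s ^ 2 ≤ t ^ 2 := by nlinarith
  rcases le_total (s ^ 2) T with h | h
  · rw [CellA_f_eq h]
    have := CellA_f_le T t
    linarith
  · rw [CellA_f_top h, CellA_f_top (h.trans h1)]
    linarith

lemma CellA_ite_nonneg {T : ℝ} (hT : 0 ≤ T) (s : ℝ) (p : Prop) [Decidable p] :
    0 ≤ (if p then f T s else 0) := by
  split_ifs
  · exact CellA_f_nonneg hT s
  · exact le_rfl

lemma CellA_ite_le {T : ℝ} (hT : 0 ≤ T) (s : ℝ) (p : Prop) [Decidable p] :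
    (if p then f T s else 0) ≤ f T s := by
  split_ifs
  · exact le_rfl
  · exact CellA_f_nonneg hT s

lemma CellA_GU_comm (T u v A B C : ℝ) : GU T u v A C B = GU T u v A B C := by
  unfold GU
  have h1 : (0 < v - C ∧ 0 < v - B ∧ 0 < u - A) ↔ (0 < v - B ∧ 0 < v - C ∧ 0 < u - A) := by tauto
  have h2 : (v - C < 0 ∧ v - B < 0 ∧ 0 < v) ↔ (v - B < 0 ∧ v - C < 0 ∧ 0 < v) := by tauto
  have h3 : (u - B < 0 ∧ u - C < 0 ∧ 0 < u) ↔ (u - C < 0 ∧ u - B < 0 ∧ 0 < u) := by tauto
  have h4 : (0 < u - B ∧ 0 < u - C ∧ 0 < v - A) ↔ (0 < u - C ∧ 0 < u - B ∧ 0 < v - A) := by tauto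
  simp only [h1, h2, h3, h4]

lemma CellA_GU_flip (T u v A B C : ℝ) : GU T v u A B C = GU T u v A B C := by
  unfold GU
  have h1 : (0 < u - B ∧ 0 < u - C ∧ 0 < v - A) ↔ (0 < u - C ∧ 0 < u - B ∧ 0 < v - A) := by tauto
  have h2 : (u - B < 0 ∧ u - C < 0 ∧ 0 < u) ↔ (u - C < 0 ∧ u - B < 0 ∧ 0 < u) := by tauto
  have h3 : (v - C < 0 ∧ v - B < 0 ∧ 0 < v) ↔ (v - B < 0 ∧ v - C < 0 ∧ 0 < v) := by tauto
  have h4 : (0 < v - C ∧ 0 < v - B ∧ 0 < u - A) ↔ (0 < v - B ∧ 0 < v - C ∧ 0 < u - A) := by tauto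
  simp only [h1, h2, h3, h4]
  ring

lemma CellA_PU_swap12 (u A B C : ℝ) : PU u B A C = PU u A B C := by
  unfold PU
  rw [show u - B - A = u - A - B by ring]
  ring

lemma CellA_PU_swap23 (u A B C : ℝ) : PU u A C B = PU u A B C := by
  unfold PU
  rw [show u - A - C - B = u - A - B - C by ring, show u - C - B = u - B - C by ring]
  ring

lemma CellA_NU_swap12 (L T u v A B C : ℝ) : NU L T u v B A C = NU L T u v A B C := by
  unfold NU
  rw [CellA_PU_swap12, CellA_GU_comm T u v C A B]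
  ring

lemma CellA_NU_swap23 (L T u v A B C : ℝ) : NU L T u v A C B = NU L T u v A B C := by
  unfold NU
  rw [CellA_PU_swap23, CellA_GU_comm T u v A B C]
  ring

lemma CellA_PU_flip {u v A B C : ℝ} (hs : u + v = A + B + C) : PU v A B C = PU u A B C := by
  have e : v = A + B + C - u := by linarith
  unfold PU
  rw [show v = -(u - A - B - C) by rw [e]; ring]
  rw [show -(u - A - B - C) - A = -(u - B - C) by ring, show -(u - A - B - C) - B = -(u - A - C) by ring,
    show -(u - A - B - C) - C = -(u - A - B) by ring, show -(u - B - C) - B = -(u - C) by ring,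
    show -(u - B - C) - C = -(u - B) by ring, show -(u - A - C) - C = -(u - A) by ring,
    show -(u - C) - C = -u by ring]
  simp only [CellA_psq_flip]
  ring

lemma CellA_NU_flip {u v A B C : ℝ} (L T : ℝ) (hs : u + v = A + B + C) :
    NU L T v u A B C = NU L T u v A B C := by
  unfold NU
  rw [CellA_PU_flip hs, CellA_GU_flip T u v A B C, CellA_GU_flip T u v B A C, CellA_GU_flip T u v C A B]

lemma CellA_sq_le {r M : ℝ} (hr : 0 ≤ r) (hM : r ≤ M) : r ^ 2 ≤ M ^ 2 := by nlinarith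

/-- some `u - C ≤ 0` -/
lemma CellA_core {L q1 q2 q3 r M u v A B C : ℝ} (hG : Good L q1 q2 q3) (hr : 0 ≤ r) (hM : r ≤ M)
    (hA : (1 - q1) * r ≤ A) (hB : (1 - q2) * r ≤ B)
    (hA0 : 0 < A) (hB0 : 0 < B) (hC0 : 0 < C) (hu0 : 0 < u) (hv0 : 0 < v)
    (hu : r ≤ u) (hs : u + v = A + B + C) (hAB : A ≤ B) (hBC : B ≤ C) (h3 : u - C ≤ 0) :
    r ^ 2 ≤ NU L (8 * M ^ 2) u v A B C := by
  have hT : 0 ≤ 8 * M ^ 2 := by positivity
  have hrM := CellA_sq_le hr hM
  have hL : 11 / 8 ≤ L := hG.a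
  set T := 8 * M ^ 2 with hTdef
  have hi := fun s p [Decidable p] => CellA_ite_nonneg hT s p
  by_cases h1 : u - A ≤ 0
  · have hP : PU u A B C = u ^ 2 := by
      unfold PU
      rw [CellA_psq_pos hu0.le, CellA_psq_neg h1, CellA_psq_neg (s := u - B) (by linarith),
        CellA_psq_neg (s := u - C) h3, CellA_psq_neg (s := u - A - B) (by linarith),
        CellA_psq_neg (s := u - A - C) (by linarith), CellA_psq_neg (s := u - B - C) (by linarith),
        CellA_psq_neg (s := u - A - B - C) (by linarith)]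
      ring
    have key : ∀ X Y Z : ℝ, 0 < v - Y → -(u ^ 2) ≤ GU T u v X Y Z := by
      intro X Y Z hY
      unfold GU
      rw [if_neg (show ¬(v - Y < 0 ∧ v - Z < 0 ∧ 0 < v) from fun h => by linarith [h.1])]
      have e1 := CellA_ite_nonneg hT (u - X) (0 < v - Y ∧ 0 < v - Z ∧ 0 < u - X)
      have e2 := CellA_ite_nonneg hT (v - X) (0 < u - Z ∧ 0 < u - Y ∧ 0 < v - X)
      have e3 := CellA_ite_le hT u (u - Z < 0 ∧ u - Y < 0 ∧ 0 < u)
      have e4 := CellA_f_le T u
      linarith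
    have k1 := key A B C (by linarith)
    have k2 := key B A C (by linarith)
    have k3 := key C A B (by linarith)
    have k4 := tri hG hr hu
    unfold NU
    rw [hP]
    linarith
  · rw [not_le] at h1
    by_cases h2 : u - B ≤ 0
    · have hP : PU u A B C = u ^ 2 - (u - A) ^ 2 := by
        unfold PU
        rw [CellA_psq_pos hu0.le, CellA_psq_pos h1.le, CellA_psq_neg (s := u - B) (by linarith),
          CellA_psq_neg (s := u - C) h3, CellA_psq_neg (s := u - A - B) (by linarith),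
          CellA_psq_neg (s := u - A - C) (by linarith), CellA_psq_neg (s := u - B - C) (by linarith),
          CellA_psq_neg (s := u - A - B - C) (by linarith)]
        ring
      have k1 : f T (u - A) - f T u ≤ GU T u v A B C := by
        unfold GU
        rw [if_neg (show ¬(v - B < 0 ∧ v - C < 0 ∧ 0 < v) from fun h => by linarith [h.1]),
          if_pos (show 0 < v - B ∧ 0 < v - C ∧ 0 < u - A from ⟨by linarith, by linarith, h1⟩)]
        have e2 := CellA_ite_nonneg hT (v - A) (0 < u - C ∧ 0 < u - B ∧ 0 < v - A)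
        have e3 := CellA_ite_le hT u (u - C < 0 ∧ u - B < 0 ∧ 0 < u)
        linarith
      have key : ∀ X Y : ℝ, 0 < v - A → 0 ≤ GU T u v X A Y := by
        intro X Y hY
        unfold GU
        rw [if_neg (show ¬(v - A < 0 ∧ v - Y < 0 ∧ 0 < v) from fun h => by linarith [h.1]),
          if_neg (show ¬(u - Y < 0 ∧ u - A < 0 ∧ 0 < u) from fun h => by linarith [h.2.1])]
        have e1 := CellA_ite_nonneg hT (u - X) (0 < v - A ∧ 0 < v - Y ∧ 0 < u - X)
        have e2 := CellA_ite_nonneg hT (v - X) (0 < u - Y ∧ 0 < u - A ∧ 0 < v - X)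
        linarith
      have k2 := key B C (by linarith)
      have k3 := key C B (by linarith)
      have k4 := trap hG hr hu hA (by linarith)
      have k5 : f T u - f T (u - A) ≤ u ^ 2 - (u - A) ^ 2 := CellA_f_diff h1.le (by linarith)
      unfold NU
      rw [hP]
      linarith
    · rw [not_le] at h2
      by_cases h4 : v - C ≤ 0
      · have hP : PU u A B C = 2 * A * B := by
          unfold PU
          rw [CellA_psq_pos hu0.le, CellA_psq_pos h1.le, CellA_psq_pos (s := u - B) h2.le,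
            CellA_psq_neg (s := u - C) h3, CellA_psq_pos (s := u - A - B) (by linarith),
            CellA_psq_neg (s := u - A - C) (by linarith), CellA_psq_neg (s := u - B - C) (by linarith),
            CellA_psq_neg (s := u - A - B - C) (by linarith)]
          ring
        have key : ∀ X Y Z : ℝ, 0 < v - Y → (0 < u - Y) → 0 ≤ GU T u v X Y Z := by
          intro X Y Z hY hY2
          unfold GU
          rw [if_neg (show ¬(v - Y < 0 ∧ v - Z < 0 ∧ 0 < v) from fun h => by linarith [h.1]),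
            if_neg (show ¬(u - Z < 0 ∧ u - Y < 0 ∧ 0 < u) from fun h => by linarith [h.2.1])]
          have e1 := CellA_ite_nonneg hT (u - X) (0 < v - Y ∧ 0 < v - Z ∧ 0 < u - X)
          have e2 := CellA_ite_nonneg hT (v - X) (0 < u - Z ∧ 0 < u - Y ∧ 0 < v - X)
          linarith
        have k1 := key A B C (by linarith) h2
        have k2 := key B A C (by linarith) h1
        have k3 := key C A B (by linarith) h1
        have k4 := para hG hr hA hB
        unfold NU
        rw [hP]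
        linarith
      · rw [not_le] at h4
        have hP : PU u A B C = u ^ 2 - (u - A) ^ 2 - (u - B) ^ 2 := by
          unfold PU
          rw [CellA_psq_pos hu0.le, CellA_psq_pos h1.le, CellA_psq_pos (s := u - B) h2.le,
            CellA_psq_neg (s := u - C) h3, CellA_psq_neg (s := u - A - B) (by linarith),
            CellA_psq_neg (s := u - A - C) (by linarith), CellA_psq_neg (s := u - B - C) (by linarith),
            CellA_psq_neg (s := u - A - B - C) (by linarith)]
          ring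
        have k1 : f T (u - A) ≤ GU T u v A B C := by
          unfold GU
          rw [if_neg (show ¬(v - B < 0 ∧ v - C < 0 ∧ 0 < v) from fun h => by linarith [h.1]),
            if_neg (show ¬(u - C < 0 ∧ u - B < 0 ∧ 0 < u) from fun h => by linarith [h.2.1]),
            if_pos (show 0 < v - B ∧ 0 < v - C ∧ 0 < u - A from ⟨by linarith, by linarith, h1⟩)]
          have e2 := CellA_ite_nonneg hT (v - A) (0 < u - C ∧ 0 < u - B ∧ 0 < v - A)
          linarith
        have k2 : f T (u - B) ≤ GU T u v B A C := by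
          unfold GU
          rw [if_neg (show ¬(v - A < 0 ∧ v - C < 0 ∧ 0 < v) from fun h => by linarith [h.1]),
            if_neg (show ¬(u - C < 0 ∧ u - A < 0 ∧ 0 < u) from fun h => by linarith [h.2.1]),
            if_pos (show 0 < v - A ∧ 0 < v - C ∧ 0 < u - B from ⟨by linarith, by linarith, h2⟩)]
          have e2 := CellA_ite_nonneg hT (v - B) (0 < u - C ∧ 0 < u - A ∧ 0 < v - B)
          linarith
        have k3 : f T (v - C) ≤ GU T u v C A B := by
          unfold GU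
          rw [if_neg (show ¬(v - A < 0 ∧ v - B < 0 ∧ 0 < v) from fun h => by linarith [h.1]),
            if_neg (show ¬(u - B < 0 ∧ u - A < 0 ∧ 0 < u) from fun h => by linarith [h.2.1]),
            if_pos (show 0 < u - B ∧ 0 < u - A ∧ 0 < v - C from ⟨h2, h1, h4⟩)]
          have e2 := CellA_ite_nonneg hT (u - C) (0 < v - A ∧ 0 < v - B ∧ 0 < u - C)
          linarith
        have f1 := CellA_f_nonneg hT (u - A)
        have f2 := CellA_f_nonneg hT (u - B)
        have f3 := CellA_f_nonneg hT (v - C)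
        have e0 : v - C = A + B - u := by linarith
        have hP0 : 0 ≤ u ^ 2 - (u - A) ^ 2 - (u - B) ^ 2 := by
          have e1 : u ^ 2 - (u - A) ^ 2 - (u - B) ^ 2 = 2 * (A * B) - (v - C) ^ 2 := by
            rw [e0]
            ring
          have e2 : (v - C) ^ 2 ≤ A * B := by
            have a1 : v - C ≤ A := by linarith
            have a2 : v - C ≤ B := by linarith
            nlinarith
          have e3 : 0 < A * B := mul_pos hA0 hB0
          linarith
        have hLP : 0 ≤ L * (u ^ 2 - (u - A) ^ 2 - (u - B) ^ 2) := mul_nonneg (by linarith) hP0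
        unfold NU
        rw [hP]
        by_cases g1 : (u - A) ^ 2 ≤ T
        · by_cases g2 : (u - B) ^ 2 ≤ T
          · by_cases g3 : (v - C) ^ 2 ≤ T
            · rw [CellA_f_eq g1] at k1
              rw [CellA_f_eq g2] at k2
              rw [CellA_f_eq g3] at k3
              have k4 := penta (τ := v - C) hG hr hA hB h4.le (by linarith) (by linarith) (by linarith)
              have e1 : L * (2 * A * B - (v - C) ^ 2) = L * (u ^ 2 - (u - A) ^ 2 - (u - B) ^ 2) := by
                rw [e0]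
                ring
              have e2 : (A - (v - C)) ^ 2 = (u - B) ^ 2 := by
                rw [e0]
                ring
              have e3 : (B - (v - C)) ^ 2 = (u - A) ^ 2 := by
                rw [e0]
                ring
              rw [e1, e2, e3] at k4
              linarith
            · rw [CellA_f_top (not_le.1 g3).le] at k3
              linarith
          · rw [CellA_f_top (not_le.1 g2).le] at k2
            linarith
        · rw [CellA_f_top (not_le.1 g1).le] at k1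
          linarith

lemma CellA_hex {L q1 q2 q3 r M u v A B C : ℝ} (hG : Good L q1 q2 q3) (hr : 0 ≤ r) (hM : r ≤ M)
    (hA : (1 - q1) * r ≤ A) (hB : (1 - q2) * r ≤ B) (hC : (1 - q3) * r ≤ C)
    (hA0 : 0 < A) (hB0 : 0 < B) (hC0 : 0 < C) (hu0 : 0 < u) (hv0 : 0 < v)
    (hu : r ≤ u) (hv : r ≤ v) (hs : u + v = A + B + C)
    (h1 : 0 < u - A) (h2 : 0 < u - B) (h3 : 0 < u - C)
    (g1 : 0 < v - A) (g2 : 0 < v - B) (g3 : 0 < v - C) :
    r ^ 2 ≤ NU L (8 * M ^ 2) u v A B C := by
  have hT : 0 ≤ 8 * M ^ 2 := by positivity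
  have hrM := CellA_sq_le hr hM
  have hL : 11 / 8 ≤ L := hG.a
  set T := 8 * M ^ 2 with hTdef
  have hP : PU u A B C = u ^ 2 - (u - A) ^ 2 - (u - B) ^ 2 - (u - C) ^ 2 := by
    unfold PU
    rw [CellA_psq_pos hu0.le, CellA_psq_pos h1.le, CellA_psq_pos (s := u - B) h2.le,
      CellA_psq_pos (s := u - C) h3.le, CellA_psq_neg (s := u - A - B) (by linarith),
      CellA_psq_neg (s := u - A - C) (by linarith), CellA_psq_neg (s := u - B - C) (by linarith),
      CellA_psq_neg (s := u - A - B - C) (by linarith)]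
    ring
  have key : ∀ X Y Z : ℝ, 0 < u - X → 0 < u - Y → 0 < u - Z → 0 < v - X → 0 < v - Y → 0 < v - Z →
      GU T u v X Y Z = f T (u - X) + f T (v - X) := by
    intro X Y Z a1 a2 a3 b1 b2 b3
    unfold GU
    rw [if_neg (show ¬(v - Y < 0 ∧ v - Z < 0 ∧ 0 < v) from fun h => by linarith [h.1]),
      if_neg (show ¬(u - Z < 0 ∧ u - Y < 0 ∧ 0 < u) from fun h => by linarith [h.2.1]),
      if_pos (show 0 < v - Y ∧ 0 < v - Z ∧ 0 < u - X from ⟨b2, b3, a1⟩),
      if_pos (show 0 < u - Z ∧ 0 < u - Y ∧ 0 < v - X from ⟨a3, a2, b1⟩)]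
    ring
  have k1 := key A B C h1 h2 h3 g1 g2 g3
  have k2 := key B A C h2 h1 h3 g2 g1 g3
  have k3 := key C A B h3 h1 h2 g3 g1 g2
  have f1 := CellA_f_nonneg hT (u - A)
  have f2 := CellA_f_nonneg hT (u - B)
  have f3 := CellA_f_nonneg hT (u - C)
  have f4 := CellA_f_nonneg hT (v - A)
  have f5 := CellA_f_nonneg hT (v - B)
  have f6 := CellA_f_nonneg hT (v - C)
  have hP0 : 0 ≤ u ^ 2 - (u - A) ^ 2 - (u - B) ^ 2 - (u - C) ^ 2 := by
    have p1 : 0 < A + B - u := by linarith
    have e1 : u - C ≤ (u - A) + (A + B - u) := by linarith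
    have e2 : u - C ≤ (u - B) + (A + B - u) := by linarith
    have e3 : (u - C) ^ 2 ≤ ((u - A) + (A + B - u)) * ((u - B) + (A + B - u)) := by
      rw [sq]
      exact mul_le_mul e1 e2 h3.le (by linarith)
    have e4 : 0 ≤ (u - A) * (u - B) := (mul_pos h1 h2).le
    have e5 : 0 ≤ (u - A) * (A + B - u) := (mul_pos h1 p1).le
    have e6 : 0 ≤ (u - B) * (A + B - u) := (mul_pos h2 p1).le
    nlinarith
  have hLP : 0 ≤ L * (u ^ 2 - (u - A) ^ 2 - (u - B) ^ 2 - (u - C) ^ 2) := mul_nonneg (by linarith) hP0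
  unfold NU
  rw [hP, k1, k2, k3]
  by_cases t1 : (u - A) ^ 2 ≤ T
  swap
  · rw [CellA_f_top (not_le.1 t1).le]
    linarith
  by_cases t2 : (u - B) ^ 2 ≤ T
  swap
  · rw [CellA_f_top (not_le.1 t2).le]
    linarith
  by_cases t3 : (u - C) ^ 2 ≤ T
  swap
  · rw [CellA_f_top (not_le.1 t3).le]
    linarith
  by_cases t4 : (v - A) ^ 2 ≤ T
  swap
  · rw [CellA_f_top (not_le.1 t4).le]
    linarith
  by_cases t5 : (v - B) ^ 2 ≤ T
  swap
  · rw [CellA_f_top (not_le.1 t5).le]
    linarith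
  by_cases t6 : (v - C) ^ 2 ≤ T
  swap
  · rw [CellA_f_top (not_le.1 t6).le]
    linarith
  rw [CellA_f_eq t1, CellA_f_eq t2, CellA_f_eq t3, CellA_f_eq t4, CellA_f_eq t5, CellA_f_eq t6]
  have k4 := hexa hG hr hA hB hC hu hv hs (by linarith) (by linarith) (by linarith) (by linarith)
    (by linarith) (by linarith)
  linarith

lemma CellA_ord {L q1 q2 q3 r M u v A B C : ℝ} (hG : Good L q1 q2 q3) (hr : 0 ≤ r) (hM : r ≤ M)
    (hA : (1 - q1) * r ≤ A) (hB : (1 - q2) * r ≤ B) (hC : (1 - q3) * r ≤ C)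
    (hA0 : 0 < A) (hB0 : 0 < B) (hC0 : 0 < C) (hu0 : 0 < u) (hv0 : 0 < v)
    (hu : r ≤ u) (hv : r ≤ v) (hs : u + v = A + B + C) (hAB : A ≤ B) (hBC : B ≤ C) :
    r ^ 2 ≤ NU L (8 * M ^ 2) u v A B C := by
  rcases le_or_gt (u - C) 0 with h | h
  · exact CellA_core hG hr hM hA hB hA0 hB0 hC0 hu0 hv0 hu hs hAB hBC h
  · rcases le_or_gt (v - C) 0 with h' | h'
    · rw [← CellA_NU_flip L (8 * M ^ 2) hs]
      exact CellA_core hG hr hM hA hB hA0 hB0 hC0 hv0 hu0 hv (by linarith) hAB hBC h'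
    · exact CellA_hex hG hr hM hA hB hC hA0 hB0 hC0 hu0 hv0 hu hv hs (by linarith) (by linarith) h
        (by linarith) (by linarith) h'

theorem cellU {L q1 q2 q3 r M u v A B C : ℝ} (hG : Good L q1 q2 q3) (hr : 0 ≤ r) (hM : r ≤ M)
    (hA : (1 - q1) * r ≤ A) (hB : (1 - q2) * r ≤ B) (hC : (1 - q3) * r ≤ C)
    (hA0 : 0 < A) (hB0 : 0 < B) (hC0 : 0 < C) (hu0 : 0 < u) (hv0 : 0 < v)
    (hu : r ≤ u) (hv : r ≤ v) (hs : u + v = A + B + C) :
    r ^ 2 ≤ NU L (8 * M ^ 2) u v A B C := by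
  rcases le_total A B with h1 | h1
  · rcases le_total B C with h2 | h2
    · exact CellA_ord hG hr hM hA hB hC hA0 hB0 hC0 hu0 hv0 hu hv hs h1 h2
    · rcases le_total A C with h3 | h3
      · rw [← CellA_NU_swap23]
        exact CellA_ord hG.rot.rot.swap hr hM hA hC hB hA0 hC0 hB0 hu0 hv0 hu hv (by linarith) h3 h2
      · rw [← CellA_NU_swap23, ← CellA_NU_swap12]
        exact CellA_ord hG.rot.rot hr hM hC hA hB hC0 hA0 hB0 hu0 hv0 hu hv (by linarith) h3 h1
  · rcases le_total A C with h2 | h2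
    · rw [← CellA_NU_swap12]
      exact CellA_ord hG.swap hr hM hB hA hC hB0 hA0 hC0 hu0 hv0 hu hv (by linarith) h1 h2
    · rcases le_total B C with h3 | h3
      · rw [← CellA_NU_swap12, ← CellA_NU_swap23]
        exact CellA_ord hG.rot hr hM hB hC hA hB0 hC0 hA0 hu0 hv0 hu hv (by linarith) h3 h2
      · rw [← CellA_NU_swap12, ← CellA_NU_swap23, ← CellA_NU_swap12]
        exact CellA_ord hG.rot.swap hr hM hC hB hA hC0 hB0 hA0 hu0 hv0 hu hv (by linarith) h3 h1

end Pool.H67.TS
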