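import Pool.Agent.H67.TS.CellA

/-!
# CellB (~80 lines): from `NU` to `N`

With `u = -(x+y+z)`, `v = x'+y'+z'`, `A = x'-x`, `B = y'-y`, `C = z'-z`: `N L T x x' y y' z z' = NU L T u v A B C` when `0 < u`,
`0 < v` (in fact always: the conditions and arguments of the `if`s match term by term:
`x'+y+z' = v - B`, `x'+y'+z = v - C`, `-(x'+y+z) = u - A`, `f T s = f T (-s)`, `x+y+z' = -(u - C)`, `x+y'+z = -(u-B)`,
`x+y'+z' = v - A`; for `E T y' x x' z z' - E T y x x' z z'` the same with `A`, `B` exchanged, etc.).  Note `P` is `PU` term by term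
(`-(x'+y'+z) = u - A - B`, ...).

* `N_eq_NU`: always true (all `if` conditions agree up to rewriting; the conditions `x + y + z < 0` is `0 < u`, in `E T x' ..` the
  condition `x' + y + z < 0` is `0 < u - A`, ...).
* `cell`: from `cellU`.
* `cell_empty`: `u ≤ 0` or `v ≤ 0` gives `N = 0`: if `u ≤ 0`, all `psq` vanish; the conditions `0 < u - A`, `0 < u`, `0 < u - C` fail
  and `v - B < 0 ∧ v - C < 0` fails as `v = A + B + C - u ≥ A + B + C > B`; if `v ≤ 0` all eight arguments of `psq` are `≥ 0` (`u - A - B - C = -v ≥ 0`)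
  and the third difference of a square is `0` (`ring`); conditions `0 < v - B` .., `0 < v`, `0 < v - A` fail, and `u - C < 0 ∧ u - B < 0` fails.
* `N_nonneg`: `u, v > 0`: `cell` with `r = 0`; otherwise `cell_empty`.
-/

set_option autoImplicit false

namespace Pool.H67.TS

theorem CellB_f_neg (T s : ℝ) : f T (-s) = f T s := by
  simp [f]

theorem CellB_E (T t t' y y' z z' : ℝ) :
    E T t' y y' z z' - E T t y y' z z'
      = GU T (-(t + y + z)) (t' + y' + z') (t' - t) (y' - y) (z' - z) := by
  have e1 : t' + y' + z' - (y' - y) = t' + y + z' := by ring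
  have e2 : t' + y' + z' - (z' - z) = t' + y' + z := by ring
  have e3 : -(t + y + z) - (t' - t) = -(t' + y + z) := by ring
  have e4 : -(t + y + z) - (z' - z) = -(t + y + z') := by ring
  have e5 : -(t + y + z) - (y' - y) = -(t + y' + z) := by ring
  have e6 : t' + y' + z' - (t' - t) = t + y' + z' := by ring
  unfold E GU
  rw [e1, e2, e3, e4, e5, e6]
  simp only [neg_pos, neg_neg_iff_pos, CellB_f_neg]
  ring

theorem N_eq_NU (L T x x' y y' z z' : ℝ) :
    N L T x x' y y' z z' = NU L T (-(x + y + z)) (x' + y' + z') (x' - x) (y' - y) (z' - z) := by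
  have h1 := CellB_E T x x' y y' z z'
  have h2 := CellB_E T y y' x x' z z'
  have h3 := CellB_E T z z' x x' y y'
  have a2 : -(y + x + z) = -(x + y + z) := by ring
  have a2' : y' + x' + z' = x' + y' + z' := by ring
  have a3 : -(z + x + y) = -(x + y + z) := by ring
  have a3' : z' + x' + y' = x' + y' + z' := by ring
  rw [a2, a2'] at h2
  rw [a3, a3'] at h3
  unfold N NU
  rw [h1, h2, h3]
  have hP : P x x' y y' z z' = PU (-(x + y + z)) (x' - x) (y' - y) (z' - z) := by
    unfold P PU
    have e1 : -(x + y + z) - (x' - x) = -(x' + y + z) := by ring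
    have e2 : -(x + y + z) - (y' - y) = -(x + y' + z) := by ring
    have e3 : -(x + y + z) - (z' - z) = -(x + y + z') := by ring
    have e4 : -(x' + y + z) - (y' - y) = -(x' + y' + z) := by ring
    have e5 : -(x' + y + z) - (z' - z) = -(x' + y + z') := by ring
    have e6 : -(x + y' + z) - (z' - z) = -(x + y' + z') := by ring
    have e7 : -(x' + y' + z) - (z' - z) = -(x' + y' + z') := by ring
    rw [e1, e2, e3, e4, e5, e6, e7]
  rw [hP]

theorem cell {L q1 q2 q3 r M x x' y y' z z' : ℝ} (hG : Good L q1 q2 q3) (hr : 0 < r) (hM : r ≤ M)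
    (hx : (1 - q1) * r ≤ x' - x) (hy : (1 - q2) * r ≤ y' - y) (hz : (1 - q3) * r ≤ z' - z)
    (hu : r ≤ -(x + y + z)) (hv : r ≤ x' + y' + z') :
    r ^ 2 ≤ N L (8 * M ^ 2) x x' y y' z z' := by
  rw [N_eq_NU]
  have hs := hG.s
  have h1 := hs.h1
  have h2 := hs.h2
  have h3 := hs.h3
  have h4 := hs.sum
  have k1 : 0 < (1 - q1) * r := mul_pos (by linarith) hr
  have k2 : 0 < (1 - q2) * r := mul_pos (by linarith) hr
  have k3 : 0 < (1 - q3) * r := mul_pos (by linarith) hr
  exact cellU hG hr.le hM hx hy hz (by linarith) (by linarith) (by linarith) (by linarith)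
    (by linarith) hu hv (by ring)

theorem CellB_psq_zero {s : ℝ} (h : s ≤ 0) : psq s = 0 := by
  unfold psq
  rw [max_eq_right h]
  ring

theorem CellB_psq_sq {s : ℝ} (h : 0 ≤ s) : psq s = s ^ 2 := by
  unfold psq
  rw [max_eq_left h]

theorem CellB_E_pos {T t y y' z z' : ℝ} (hy : y < y') (hz : z < z') (h : 0 ≤ t + y + z) :
    E T t y y' z z' = 0 := by
  unfold E
  rw [if_neg (by rintro ⟨_, _, h3⟩; linarith), if_neg (by rintro ⟨h1, _, _⟩; linarith)]
  ring

theorem CellB_E_neg {T t y y' z z' : ℝ} (hy : y < y') (hz : z < z') (h : t + y' + z' ≤ 0) :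
    E T t y y' z z' = 0 := by
  unfold E
  rw [if_neg (by rintro ⟨h1, _, _⟩; linarith), if_neg (by rintro ⟨_, _, h3⟩; linarith)]
  ring

theorem cell_empty {L T x x' y y' z z' : ℝ} (hx : x < x') (hy : y < y') (hz : z < z')
    (h : 0 ≤ x + y + z ∨ x' + y' + z' ≤ 0) : N L T x x' y y' z z' = 0 := by
  unfold N
  rcases h with h | h
  · rw [CellB_E_pos hy hz (by linarith), CellB_E_pos hy hz (by linarith),
      CellB_E_pos hx hz (by linarith), CellB_E_pos hx hz (by linarith),
      CellB_E_pos hx hy (by linarith), CellB_E_pos hx hy (by linarith)]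
    have : P x x' y y' z z' = 0 := by
      unfold P
      rw [CellB_psq_zero (s := -(x + y + z)) (by linarith),
        CellB_psq_zero (s := -(x' + y + z)) (by linarith),
        CellB_psq_zero (s := -(x + y' + z)) (by linarith),
        CellB_psq_zero (s := -(x + y + z')) (by linarith),
        CellB_psq_zero (s := -(x' + y' + z)) (by linarith),
        CellB_psq_zero (s := -(x' + y + z')) (by linarith),
        CellB_psq_zero (s := -(x + y' + z')) (by linarith),
        CellB_psq_zero (s := -(x' + y' + z')) (by linarith)]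
      ring
    rw [this]
    ring
  · rw [CellB_E_neg hy hz (by linarith), CellB_E_neg hy hz (by linarith),
      CellB_E_neg hx hz (by linarith), CellB_E_neg hx hz (by linarith),
      CellB_E_neg hx hy (by linarith), CellB_E_neg hx hy (by linarith)]
    have : P x x' y y' z z' = 0 := by
      unfold P
      rw [CellB_psq_sq (s := -(x + y + z)) (by linarith),
        CellB_psq_sq (s := -(x' + y + z)) (by linarith),
        CellB_psq_sq (s := -(x + y' + z)) (by linarith),
        CellB_psq_sq (s := -(x + y + z')) (by linarith),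
        CellB_psq_sq (s := -(x' + y' + z)) (by linarith),
        CellB_psq_sq (s := -(x' + y + z')) (by linarith),
        CellB_psq_sq (s := -(x + y' + z')) (by linarith),
        CellB_psq_sq (s := -(x' + y' + z')) (by linarith)]
      ring
    rw [this]
    ring

theorem N_nonneg {L q1 q2 q3 M x x' y y' z z' : ℝ} (hG : Good L q1 q2 q3) (hM : 0 ≤ M)
    (hx : x < x') (hy : y < y') (hz : z < z') : 0 ≤ N L (8 * M ^ 2) x x' y y' z z' := by
  by_cases h : 0 ≤ x + y + z ∨ x' + y' + z' ≤ 0
  · rw [cell_empty hx hy hz h]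
  · push Not at h
    obtain ⟨h1, h2⟩ := h
    rw [N_eq_NU]
    have := cellU (r := 0) (M := M) (u := -(x + y + z)) (v := x' + y' + z') (A := x' - x)
      (B := y' - y) (C := z' - z) hG le_rfl hM (by linarith) (by linarith) (by linarith)
      (by linarith) (by linarith) (by linarith) (by linarith) (by linarith) (by linarith)
      (by linarith) (by ring)
    simpa using this

end Pool.H67.TS
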