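import Pool.Agent.H67.TS.Enum

/-!
# Family (~120 lines): the lines of one family

`F` finite set of discs with projections `[h i - l r i, h i + l r i] ⊆ [lo, hi]`, `l > 0`, `r i > 0`.
Let `S` be a finite set of reals containing, for each pair `i ≠ j` in `F` for which some `t` satisfies `SepNum F h r l t i j`, one such `t`
(e.g. `S = (F ×ˢ F).image (fun p => if hp : ∃ t, SepNum F h r l t p.1 p.2 then hp.choose else lo)` with `classical`; for the junk value `lo` see below).
Every `t ∈ S` satisfies: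
 (i) `∀ k ∈ F, l * r k ≤ |t - h k|` (for a chosen `t` of the pair `(i,j)`: for `k ≠ i, j` by `SepNum`, for `k = i, j` from the first part; note that
     `SepNum F h r l t i i` is impossible for `i ∈ F` as `l * r i > 0`, but you do not need this; for `t = lo` from `lo ≤ h k - l r k`);
 (ii) `lo ≤ t ≤ hi` (`i, j ∈ F`: `t` lies between `h i + l r i` and `h j - l r j`).
`enum_exists S lo hi` gives `n, X`; for every `i ≤ n`: `X i ∈ S ∨ X i = lo ∨ X i = hi`, so `l * r k ≤ |X i - h k|` for all `k ∈ F`; `gap_exists` (with `p = h k`,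
`s = l * r k`) gives `g k` (for `k ∉ F` put `g k = 0`).
If `SepNum F h r l t i j` for some `t`, then the chosen `t₀ = X s` (`s ≤ n`) satisfies the first part: say `h i + l r i ≤ X s ≤ h j - l r j`.
Then `X (g i) ≤ h i - l r i < X s`, so `g i < s`; and `X s ≤ h j - l r j < h j + l r j ≤ X (g j + 1)`, so `s < g j + 1`; hence `g i < g j`.
Other case symmetric.
-/

set_option autoImplicit false

namespace Pool.H67.TS

theorem one_family {κ : Type*} (F : Finset κ) (h r : κ → ℝ) {l lo hi : ℝ} (hl : 0 < l)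
    (hlo : lo < hi) (hr : ∀ i ∈ F, 0 < r i)
    (hb : ∀ i ∈ F, lo ≤ h i - l * r i ∧ h i + l * r i ≤ hi) :
    ∃ (n : ℕ) (X : ℕ → ℝ) (g : κ → ℕ), StrictMono X ∧ X 0 = lo ∧ X n = hi ∧
      (∀ i ∈ F, g i < n ∧ X (g i) ≤ h i - l * r i ∧ h i + l * r i ≤ X (g i + 1)) ∧
      (∀ i ∈ F, ∀ j ∈ F, i ≠ j → (∃ t, SepNum F h r l t i j) → g i ≠ g j) := by
  classical
  have hd : ∀ t : ℝ, ∀ i : κ, (h i + l * r i ≤ t ∨ t ≤ h i - l * r i) → l * r i ≤ |t - h i| := by
    intro t i hti
    rcases hti with h1 | h1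
    · exact le_trans (by linarith) (le_abs_self _)
    · exact le_trans (by linarith) (neg_le_abs _)
  let T : κ × κ → ℝ := fun p => if hp : ∃ t, SepNum F h r l t p.1 p.2 then hp.choose else lo
  have hT : ∀ p : κ × κ, (∃ t, SepNum F h r l t p.1 p.2) → SepNum F h r l (T p) p.1 p.2 := by
    intro p hp
    have : T p = hp.choose := dif_pos hp
    rw [this]
    exact hp.choose_spec
  have hT' : ∀ p : κ × κ, (¬ ∃ t, SepNum F h r l t p.1 p.2) → T p = lo := fun p hp => dif_neg hp
  have hpos : ∀ i ∈ F, 0 < l * r i := fun i hi => mul_pos hl (hr i hi)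
  have hA : ∀ p ∈ F ×ˢ F, ∀ k ∈ F, l * r k ≤ |T p - h k| := by
    intro p hp k hk
    rw [Finset.mem_product] at hp
    by_cases he : ∃ t, SepNum F h r l t p.1 p.2
    · have hs := hT p he
      by_cases h1 : k = p.1
      · rw [h1]
        apply hd
        rcases hs.1 with h2 | h2
        · exact Or.inl h2.1
        · exact Or.inr h2.2
      · by_cases h3 : k = p.2
        · rw [h3]
          apply hd
          rcases hs.1 with h2 | h2
          · exact Or.inr h2.2
          · exact Or.inl h2.1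
        · exact hs.2 k hk h1 h3
    · rw [hT' p he]
      exact hd _ _ (Or.inr (hb k hk).1)
  have hB : ∀ p ∈ F ×ˢ F, lo ≤ T p ∧ T p ≤ hi := by
    intro p hp
    rw [Finset.mem_product] at hp
    by_cases he : ∃ t, SepNum F h r l t p.1 p.2
    · have hs := (hT p he).1
      have b1 := hb _ hp.1
      have b2 := hb _ hp.2
      have p1 := hpos _ hp.1
      have p2 := hpos _ hp.2
      rcases hs with h2 | h2
      · exact ⟨by linarith [h2.1], by linarith [h2.2]⟩
      · exact ⟨by linarith [h2.1], by linarith [h2.2]⟩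
    · rw [hT' p he]
      exact ⟨le_rfl, hlo.le⟩
  obtain ⟨n, X, hX, h0, hn, hS1, hS2⟩ := enum_exists ((F ×ˢ F).image T) hlo (by
    intro s hs
    obtain ⟨p, hp, rfl⟩ := Finset.mem_image.1 hs
    exact hB p hp)
  have hgap : ∀ k ∈ F, ∀ i ≤ n, l * r k ≤ |X i - h k| := by
    intro k hk i hi'
    rcases hS2 i hi' with h1 | h1 | h1
    · obtain ⟨p, hp, h2⟩ := Finset.mem_image.1 h1
      rw [← h2]
      exact hA p hp k hk
    · rw [h1]
      exact hd _ _ (Or.inr (hb k hk).1)
    · rw [h1]
      exact hd _ _ (Or.inl (hb k hk).2)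
  have hg : ∀ k, ∃ g, k ∈ F → g < n ∧ X g ≤ h k - l * r k ∧ h k + l * r k ≤ X (g + 1) := by
    intro k
    by_cases hk : k ∈ F
    · obtain ⟨g, h1, h2⟩ := gap_exists hX n (hpos k hk) (by rw [h0]; exact (hb k hk).1)
        (by rw [hn]; exact (hb k hk).2) (hgap k hk)
      exact ⟨g, fun _ => ⟨h1, h2⟩⟩
    · exact ⟨0, fun h1 => absurd h1 hk⟩
  choose g hg using hg
  refine ⟨n, X, g, hX, h0, hn, fun i hi' => hg i hi', ?_⟩
  intro i hi' j hj hij hex heq
  have hs := (hT (i, j) hex).1
  obtain ⟨s, hs', hXs⟩ := hS1 (T (i, j)) (Finset.mem_image_of_mem _ (Finset.mem_product.2 ⟨hi', hj⟩))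
  rw [← hXs] at hs
  have gi := hg i hi'
  have gj := hg j hj
  have pi := hpos i hi'
  have pj := hpos j hj
  rcases hs with h2 | h2
  · have a1 : g i < s := hX.lt_iff_lt.1 (by simp only at h2; linarith [h2.1, gi.2.1])
    have a2 : s < g j + 1 := hX.lt_iff_lt.1 (by simp only at h2; linarith [h2.2, gj.2.2])
    omega
  · have a1 : g j < s := hX.lt_iff_lt.1 (by simp only at h2; linarith [h2.1, gj.2.1])
    have a2 : s < g i + 1 := hX.lt_iff_lt.1 (by simp only at h2; linarith [h2.2, gi.2.2])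
    omega

end Pool.H67.TS
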