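import Pool.Agent.H67.TS.SumA

/-!
# SumB (~80 lines): the sum of all charges

`∑∑∑ N = L ∑∑∑ P + 1/8 (S₁ + S₂ + S₃)`, with
`S₁ = ∑_j ∑_k ∑_i (E T (X (i+1)) (Y j) (Y (j+1)) (Z k) (Z (k+1)) - E T (X i) ..) = ∑_j ∑_k (E T (X a) .. - E T (X 0) ..)`
(`Finset.sum_comm`, `Finset.sum_range_sub`), so `S₁ ≤ 2 √T (Y b - Y 0)` by `sum_E`; `S₂ = ∑_i ∑_k (E T (Y b) (X i) (X (i+1)) (Z k) (Z (k+1)) - E T (Y 0) ..)
≤ 2 √T (X a - X 0)`; `S₃ ≤ 2 √T (X a - X 0)` in the same way.  The `P` part is `sum_P`.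
-/

set_option autoImplicit false

namespace Pool.H67.TS

theorem sum_N {X Y Z : ℕ → ℝ} (hX : Monotone X) (hY : Monotone Y) (hZ : Monotone Z) (a b c : ℕ)
    {L T : ℝ} (hT : 0 ≤ T) :
    ∑ i ∈ Finset.range a, ∑ j ∈ Finset.range b, ∑ k ∈ Finset.range c,
        N L T (X i) (X (i + 1)) (Y j) (Y (j + 1)) (Z k) (Z (k + 1))
      ≤ L * P (X 0) (X a) (Y 0) (Y b) (Z 0) (Z c)
        + 1 / 8 * (2 * √T * (Y b - Y 0) + 2 * √T * (X a - X 0) + 2 * √T * (X a - X 0)) := by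
  sorry

end Pool.H67.TS
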