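import Pool.Agent.H67.TS.NumB
import Pool.Agent.H67.TS.CellB
import Pool.Agent.H67.TS.SumB
import Pool.Agent.H67.TS.Family

/-!
# Core (~150 lines): the bound in a window, numerical form

Data: a finite set `F` of discs with coordinates `α i + β i + γ i = 0` and radii `0 < r i ≤ M`; the projections of the disc are
`[α i - l₁ r i, α i + l₁ r i]`, ..., `l_m = (1 - q_m)/2` (so `l₁ + l₂ + l₃ = 1`, `0 < l_m < 1/2`).  All discs lie in the window
`a ≤ α ≤ a + w`, `b ≤ β ≤ b + w`.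

(1) `one_family` for the three families: family 1: `lo = a`, `hi = a + w`; family 2: `b`, `b + w`; family 3: `lo = -(a+b) - 2w`, `hi = -(a+b)`.  All discs satisfy
   the bounds (family 3: `γ i = -α i - β i`, e.g. `γ i + l₃ r i ≤ -(a + l₁ r i) - (b + l₂ r i) + l₃ r i ≤ -(a+b)` because `l₃ ≤ l₁ + l₂`, i.e. `q₃ ≥ 0`).
   Result: `X, Y, Z` of lengths `n₁, n₂, n₃` and indices `g₁, g₂, g₃`.
(2) `i ↦ (g₁ i, g₂ i, g₃ i)` is injective on `F` by `hsep` and the last part of `one_family`.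
(3) for `i ∈ F`: `r i ^ 2 ≤ N Λ (8M²) (X g₁) (X (g₁+1)) (Y g₂) .. ` by `cell` (`good_lam`): widths `X (g₁+1) - X g₁ ≥ 2 l₁ r i = (1-q₁) r i`;
   `-(X g₁ + Y g₂ + Z g₃) ≥ -(α+β+γ) + (l₁+l₂+l₃) r = r`; `X (g₁+1) + Y (g₂+1) + Z (g₃+1) ≥ r` similarly.
(4) `∑_{i∈F} r i² ≤ ∑_{(x,y,z) ∈ range n₁ ×ˢ range n₂ ×ˢ range n₃} N = ∑∑∑ N` (injectivity and `N_nonneg`: `Finset.sum_image`/`Finset.sum_le_sum_of_subset_of_nonneg`,
   `Finset.sum_product`), and `sum_N` bounds it by `Λ P(a, a+w, b, b+w, -(a+b)-2w, -(a+b)) + 1/8 * 6 √(8M²) w`; here `P(..) = 2w²` (arguments of `psq`: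
   `2w, w, w, 0, 0, -w, -w, -2w`), and `√(8M²) ≤ 3 M`, so the last term is `≤ (6/8) * 3 M w ≤ 3 M w`.
-/

set_option autoImplicit false

namespace Pool.H67.TS

lemma Core_P (a b w : ℝ) (hw : 0 < w) :
    P a (a + w) b (b + w) (-(a + b) - 2 * w) (-(a + b)) = 2 * w ^ 2 := by
  unfold P psq
  have h2 : max (2 * w) 0 = 2 * w := max_eq_left (by linarith)
  have h1 : max w 0 = w := max_eq_left hw.le
  have h0 : max (0 : ℝ) 0 = 0 := max_self 0
  have h3 : max (-w) 0 = 0 := max_eq_right (by linarith)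
  have h4 : max (-(2 * w)) 0 = 0 := max_eq_right (by linarith)
  rw [show -(a + b + (-(a + b) - 2 * w)) = 2 * w by ring,
    show -(a + w + b + (-(a + b) - 2 * w)) = w by ring,
    show -(a + (b + w) + (-(a + b) - 2 * w)) = w by ring,
    show -(a + b + -(a + b)) = (0 : ℝ) by ring,
    show -(a + w + (b + w) + (-(a + b) - 2 * w)) = (0 : ℝ) by ring,
    show -(a + w + b + -(a + b)) = -w by ring,
    show -(a + (b + w) + -(a + b)) = -w by ring,
    show -(a + w + (b + w) + -(a + b)) = -(2 * w) by ring, h0, h1, h2, h3, h4]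
  ring

theorem core {κ : Type*} (F : Finset κ) (α β γ r : κ → ℝ) {q1 q2 q3 M a b w : ℝ}
    (hq : Simplex q1 q2 q3) (hw : 0 < w) (hM : 0 ≤ M)
    (hsum : ∀ i ∈ F, α i + β i + γ i = 0) (hr : ∀ i ∈ F, 0 < r i ∧ r i ≤ M)
    (hα : ∀ i ∈ F, a ≤ α i - (1 - q1) / 2 * r i ∧ α i + (1 - q1) / 2 * r i ≤ a + w)
    (hβ : ∀ i ∈ F, b ≤ β i - (1 - q2) / 2 * r i ∧ β i + (1 - q2) / 2 * r i ≤ b + w)
    (hsep : ∀ i ∈ F, ∀ j ∈ F, i ≠ j → ∃ t, SepNum F α r ((1 - q1) / 2) t i j ∨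
      SepNum F β r ((1 - q2) / 2) t i j ∨ SepNum F γ r ((1 - q3) / 2) t i j) :
    ∑ i ∈ F, r i ^ 2 ≤ Lam q1 q2 q3 * (2 * w ^ 2) + 3 * M * w := by
  have hG := good_lam hq
  have h1 := hq.h1
  have h2 := hq.h2
  have h3 := hq.h3
  have hs := hq.sum
  have hr0 : ∀ i ∈ F, 0 < r i := fun i hi => (hr i hi).1
  have hγ : ∀ i ∈ F, -(a + b) - 2 * w ≤ γ i - (1 - q3) / 2 * r i ∧ γ i + (1 - q3) / 2 * r i ≤ -(a + b) := by
    intro i hi
    have e1 := hsum i hi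
    have e2 := hα i hi
    have e3 := hβ i hi
    have e4 : 0 < q3 * r i := mul_pos h3 (hr0 i hi)
    have e5 : (1 - q1) / 2 * r i + (1 - q2) / 2 * r i - (1 - q3) / 2 * r i = q3 * r i := by
      linear_combination (-(r i) / 2) * hs
    constructor
    · linarith [e2.2, e3.2]
    · linarith [e2.1, e3.1]
  obtain ⟨n1, X, g1, hX, hX0, hXn, hg1, hs1⟩ := one_family F α r (l := (1 - q1) / 2) (lo := a) (hi := a + w)
    (by linarith) (by linarith) hr0 hα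
  obtain ⟨n2, Y, g2, hY, hY0, hYn, hg2, hs2⟩ := one_family F β r (l := (1 - q2) / 2) (lo := b) (hi := b + w)
    (by linarith) (by linarith) hr0 hβ
  obtain ⟨n3, Z, g3, hZ, hZ0, hZn, hg3, hs3⟩ := one_family F γ r (l := (1 - q3) / 2)
    (lo := -(a + b) - 2 * w) (hi := -(a + b)) (by linarith) (by linarith) hr0 hγ
  set G : κ → ℕ × ℕ × ℕ := fun i => (g1 i, g2 i, g3 i) with hGdef
  set N' : ℕ × ℕ × ℕ → ℝ := fun p => N (Lam q1 q2 q3) (8 * M ^ 2) (X p.1) (X (p.1 + 1)) (Y p.2.1)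
    (Y (p.2.1 + 1)) (Z p.2.2) (Z (p.2.2 + 1)) with hN'
  have hinj : Set.InjOn G (F : Set κ) := by
    intro i hi j hj hij
    by_contra hne
    have e1 : g1 i = g1 j := congrArg (fun p => p.1) hij
    have e2 : g2 i = g2 j := congrArg (fun p => p.2.1) hij
    have e3 : g3 i = g3 j := congrArg (fun p => p.2.2) hij
    obtain ⟨t, ht⟩ := hsep i hi j hj hne
    rcases ht with ht | ht | ht
    · exact hs1 i hi j hj hne ⟨t, ht⟩ e1
    · exact hs2 i hi j hj hne ⟨t, ht⟩ e2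
    · exact hs3 i hi j hj hne ⟨t, ht⟩ e3
  have hN0 : ∀ p, 0 ≤ N' p := fun p =>
    N_nonneg hG hM (hX (Nat.lt_succ_self _)) (hY (Nat.lt_succ_self _)) (hZ (Nat.lt_succ_self _))
  have hcell : ∀ i ∈ F, r i ^ 2 ≤ N' (G i) := by
    intro i hi
    obtain ⟨-, a1, a2⟩ := hg1 i hi
    obtain ⟨-, b1, b2⟩ := hg2 i hi
    obtain ⟨-, c1, c2⟩ := hg3 i hi
    have e1 := hsum i hi
    have e5 : (1 - q1) / 2 * r i + (1 - q2) / 2 * r i + (1 - q3) / 2 * r i = r i := by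
      linear_combination (-(r i) / 2) * hs
    refine cell hG (hr i hi).1 (hr i hi).2 ?_ ?_ ?_ ?_ ?_
    · linarith
    · linarith
    · linarith
    · linarith
    · linarith
  have hsub : F.image G ⊆ Finset.range n1 ×ˢ (Finset.range n2 ×ˢ Finset.range n3) := by
    intro p hp
    obtain ⟨i, hi, rfl⟩ := Finset.mem_image.1 hp
    refine Finset.mem_product.2 ⟨Finset.mem_range.2 (hg1 i hi).1, Finset.mem_product.2
      ⟨Finset.mem_range.2 (hg2 i hi).1, Finset.mem_range.2 (hg3 i hi).1⟩⟩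
  have step1 : ∑ i ∈ F, r i ^ 2 ≤ ∑ p ∈ Finset.range n1 ×ˢ (Finset.range n2 ×ˢ Finset.range n3), N' p := by
    calc ∑ i ∈ F, r i ^ 2 ≤ ∑ i ∈ F, N' (G i) := Finset.sum_le_sum hcell
      _ = ∑ p ∈ F.image G, N' p := (Finset.sum_image hinj).symm
      _ ≤ _ := Finset.sum_le_sum_of_subset_of_nonneg hsub (fun p _ _ => hN0 p)
  rw [Finset.sum_product] at step1
  have step2 : ∑ i ∈ Finset.range n1, ∑ q ∈ Finset.range n2 ×ˢ Finset.range n3, N' (i, q) =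
      ∑ i ∈ Finset.range n1, ∑ j ∈ Finset.range n2, ∑ k ∈ Finset.range n3,
        N (Lam q1 q2 q3) (8 * M ^ 2) (X i) (X (i + 1)) (Y j) (Y (j + 1)) (Z k) (Z (k + 1)) := by
    refine Finset.sum_congr rfl fun i _ => ?_
    rw [Finset.sum_product]
  rw [step2] at step1
  have hT : (0 : ℝ) ≤ 8 * M ^ 2 := by positivity
  have step3 := sum_N hX.monotone hY.monotone hZ.monotone n1 n2 n3 (L := Lam q1 q2 q3) hT
  rw [hX0, hXn, hY0, hYn, hZ0, hZn, Core_P a b w hw] at step3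
  have hsq : √(8 * M ^ 2) ≤ 3 * M := by
    rw [Real.sqrt_le_iff]
    exact ⟨by linarith, by nlinarith [sq_nonneg M]⟩
  have hsw : √(8 * M ^ 2) * w ≤ 3 * M * w := mul_le_mul_of_nonneg_right hsq hw.le
  have hMw : 0 ≤ M * w := mul_nonneg hM hw.le
  have e7 : 1 / 8 * (2 * √(8 * M ^ 2) * (b + w - b) + 2 * √(8 * M ^ 2) * (a + w - a) +
      2 * √(8 * M ^ 2) * (a + w - a)) = 3 / 4 * (√(8 * M ^ 2) * w) := by ring
  rw [e7] at step3
  linarith

end Pool.H67.TS
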