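import Mathlib

/-!
Problem MP_887a8d_co: density of totally separable circle packings.  Definitions.
-/

set_option autoImplicit false

namespace Pool.H67.TS

open MeasureTheory Filter Metric
open scoped ENNReal

noncomputable section

/-- The Euclidean plane. -/
abbrev Plane : Type := EuclideanSpace ℝ (Fin 2)

/-- The closed discs with centres `c i` and radii `r i > 0` have pairwise disjoint interiors. -/
structure IsPacking {ι : Type*} (c : ι → Plane) (r : ι → ℝ) : Prop where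
  pos : ∀ i, 0 < r i
  disj : ∀ i j, i ≠ j → Disjoint (ball (c i) (r i)) (ball (c j) (r j))

/-- The line with normal vector `n` and offset `t`. -/
def line (n : Plane) (t : ℝ) : Set Plane := {x | inner ℝ n x = t}

/-- One of the two closed half-planes bounded by `line n t`. -/
def lowerHalf (n : Plane) (t : ℝ) : Set Plane := {x | inner ℝ n x ≤ t}

/-- The other closed half-plane bounded by `line n t`. -/
def upperHalf (n : Plane) (t : ℝ) : Set Plane := {x | t ≤ inner ℝ n x}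

/-- The discs `i` and `j` lie in opposite closed half-planes of `line n t`, and `line n t` is
disjoint from the interior of every other disc. -/
def Separates {ι : Type*} (c : ι → Plane) (r : ι → ℝ) (n : Plane) (t : ℝ) (i j : ι) : Prop :=
  ((closedBall (c i) (r i) ⊆ lowerHalf n t ∧ closedBall (c j) (r j) ⊆ upperHalf n t) ∨
    (closedBall (c i) (r i) ⊆ upperHalf n t ∧ closedBall (c j) (r j) ⊆ lowerHalf n t)) ∧
  ∀ k, k ≠ i → k ≠ j → Disjoint (line n t) (ball (c k) (r k))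

/-- The packing is totally separable by lines perpendicular to one of the vectors `n 0, n 1, n 2`. -/
def SeparableIn {ι : Type*} (n : Fin 3 → Plane) (c : ι → Plane) (r : ι → ℝ) : Prop :=
  ∀ i j, i ≠ j → ∃ m : Fin 3, ∃ t : ℝ, Separates c r (n m) t i j

/-- The upper density `limsup_{R → ∞} area ((⋃ discs) ∩ B(0,R)) / (π R²)`. -/
def upperDensity {ι : Type*} (c : ι → Plane) (r : ι → ℝ) : ℝ≥0∞ :=
  limsup (fun R : ℝ => volume ((⋃ i, closedBall (c i) (r i)) ∩ ball 0 R) /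
    ENNReal.ofReal (Real.pi * R ^ 2)) atTop

/-! ### Auxiliary functions of the proof -/

/-- `q₁, q₂, q₃ > 0` with sum `1` (for three directions forming a triangle with angles `2a, 2b, 2c`
these are the products `tan b tan c, tan c tan a, tan a tan b`). -/
structure Simplex (q1 q2 q3 : ℝ) : Prop where
  h1 : 0 < q1
  h2 : 0 < q2
  h3 : 0 < q3
  sum : q1 + q2 + q3 = 1

/-- The constant `Λ = 11 / (24 √3 √(q₁q₂q₃))`. -/
def Lam (q1 q2 q3 : ℝ) : ℝ := 11 / (24 * √3 * √(q1 * q2 * q3))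

/-- The inequalities between `L = Λ` and `q₁, q₂, q₃` used in the proof. -/
structure Good (L q1 q2 q3 : ℝ) : Prop where
  s : Simplex q1 q2 q3
  a : 11 / 8 ≤ L
  b1 : 1 ≤ (L - 1 / 8) * (1 - q1 ^ 2)
  b2 : 1 ≤ (L - 1 / 8) * (1 - q2 ^ 2)
  b3 : 1 ≤ (L - 1 / 8) * (1 - q3 ^ 2)
  c12 : 1 ≤ 2 * L * ((1 - q1) * (1 - q2))
  c13 : 1 ≤ 2 * L * ((1 - q1) * (1 - q3))
  c23 : 1 ≤ 2 * L * ((1 - q2) * (1 - q3))
  d12 : 1 ≤ L * (1 - q1 ^ 2 - q2 ^ 2) + 1 / 8 * (q1 ^ 2 + q2 ^ 2 + q3 ^ 2)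
  d13 : 1 ≤ L * (1 - q1 ^ 2 - q3 ^ 2) + 1 / 8 * (q1 ^ 2 + q2 ^ 2 + q3 ^ 2)
  d23 : 1 ≤ L * (1 - q2 ^ 2 - q3 ^ 2) + 1 / 8 * (q1 ^ 2 + q2 ^ 2 + q3 ^ 2)
  e : 1 ≤ L * (1 - q1 ^ 2 - q2 ^ 2 - q3 ^ 2) + 1 / 4 * (q1 ^ 2 + q2 ^ 2 + q3 ^ 2)

/-- The square of the positive part. -/
def psq (s : ℝ) : ℝ := (max s 0) ^ 2

/-- Normalised area of the cell `x < H₁ < x', y < H₂ < y', z < H₃ < z'`, `H₁ + H₂ + H₃ = 0`: a
mixed third difference. -/
def P (x x' y y' z z' : ℝ) : ℝ :=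
  psq (-(x + y + z)) - psq (-(x' + y + z)) - psq (-(x + y' + z)) - psq (-(x + y + z'))
    + psq (-(x' + y' + z)) + psq (-(x' + y + z')) + psq (-(x + y' + z')) - psq (-(x' + y' + z'))

/-- Truncated square. -/
def f (T s : ℝ) : ℝ := min (s ^ 2) T

/-- Charge of the edge cut out on the line `H₁ = t` by `y < H₂ < y'`, `z < H₃ < z'`. -/
def E (T t y y' z z' : ℝ) : ℝ :=
  (if 0 < t + y + z' ∧ 0 < t + y' + z ∧ t + y + z < 0 then f T (t + y + z) else 0)
    - (if t + y + z' < 0 ∧ t + y' + z < 0 ∧ 0 < t + y' + z' then f T (t + y' + z') else 0)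

/-- Total charge of a cell. -/
def N (L T x x' y y' z z' : ℝ) : ℝ :=
  L * P x x' y y' z z' + 1 / 8 * ((E T x' y y' z z' - E T x y y' z z')
    + (E T y' x x' z z' - E T y x x' z z') + (E T z' x x' y y' - E T z x x' y y'))

/-- Numerical separation of two of the intervals `[h i - l * r i, h i + l * r i]` by `t`, with `t`
not in the interior of any of them. -/
def SepNum {κ : Type*} (F : Finset κ) (h r : κ → ℝ) (l t : ℝ) (i j : κ) : Prop :=
  ((h i + l * r i ≤ t ∧ t ≤ h j - l * r j) ∨ (h j + l * r j ≤ t ∧ t ≤ h i - l * r i)) ∧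
  ∀ k ∈ F, k ≠ i → k ≠ j → l * r k ≤ |t - h k|

/-- The half-open window `a ≤ l₀⟨m₀,x⟩ < a + w`, `b ≤ l₁⟨m₁,x⟩ < b + w`. -/
def Win (m0 m1 : Plane) (l0 l1 a b w : ℝ) : Set Plane :=
  {x | (a ≤ l0 * inner ℝ m0 x ∧ l0 * inner ℝ m0 x < a + w) ∧
    (b ≤ l1 * inner ℝ m1 x ∧ l1 * inner ℝ m1 x < b + w)}

/-- Unit normals `m i` proportional to the given `n i`, with `∑ l i • m i = 0` for the weights
`l i = (1 - q i) / 2`, and the area normalisation. -/
structure Frame (n : Fin 3 → Plane) (m : Fin 3 → Plane) (q : Fin 3 → ℝ) : Prop where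
  unit : ∀ i, ‖m i‖ = 1
  par : ∀ i, ∃ e : ℝ, e ≠ 0 ∧ n i = e • m i
  simplex : Simplex (q 0) (q 1) (q 2)
  rel : ((1 - q 0) / 2) • m 0 + ((1 - q 1) / 2) • m 1 + ((1 - q 2) / 2) • m 2 = 0
  det : ((1 - q 0) / 2 * ((1 - q 1) / 2) * (m 0 0 * m 1 1 - m 0 1 * m 1 0)) ^ 2
      = q 0 * q 1 * q 2 / 4

end

end Pool.H67.TS
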