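import Pool.Agent.H67.TS.Vol

/-!
# DensLim (~150 lines): from windows to the upper density

`A` is any set of the plane with `volume (A ∩ W) ≤ η * volume W` for all windows
`W = W(p,s) = Win m0 m1 l0 l1 (p w) (s w) w`, `p, s ∈ ℤ`.  These windows partition the plane (`p = ⌊l0⟪m0,x⟫ / w⌋`, ...).

For `R > 0` let `I_R = {(p,s) : (W(p,s) ∩ ball 0 R).Nonempty}`.  Then `A ∩ ball 0 R ⊆ ⋃_{I_R} (A ∩ W(p,s))`, so
`volume (A ∩ ball 0 R) ≤ ∑'_{(p,s) ∈ I_R} volume (A ∩ W(p,s)) ≤ η ∑'_{I_R} volume W(p,s) = η volume (⋃_{I_R} W(p,s)) ≤ η volume (ball 0 (R + ρ + 1))`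
(`measure_iUnion_le` for the countable index type `I_R` (subtype of `ℤ × ℤ`), `measure_iUnion` with pairwise disjoint measurable windows,
`diam_win`: every point of a window meeting `ball 0 R` has norm `< R + ρ`).
`volume (ball 0 R') = ofReal (π R'^2)` (`EuclideanSpace.volume_ball_fin_two`: `ofReal R' ^ 2 * π`-like form).
So `volume (A ∩ ball 0 R) / ofReal (π R²) ≤ η * ofReal ((R+ρ+1)²/R²)` for `R > 0`, which tends to `η` as `R → ∞`; the limsup is `≤ η`: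
`limsup ≤ limsup` of the bound (`Filter.limsup_le_limsup` with `Eventually`), and the bound tends to `η`
(`Tendsto.limsup_eq`; `ENNReal.tendsto_ofReal`, `ENNReal.Tendsto.const_mul`, `η ≠ ∞`), where `η = ofReal η'`.
Alternatively show for every `ε > 0` that eventually the quotient is `≤ ofReal (η' (1+ε))`, `limsup_le_of_le`, and let `ε → 0`.
-/

set_option autoImplicit false

open MeasureTheory Metric Filter

namespace Pool.H67.TS

theorem DensLim_mem_floor {t w : ℝ} (hw : 0 < w) :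
    (⌊t / w⌋ : ℝ) * w ≤ t ∧ t < (⌊t / w⌋ : ℝ) * w + w := by
  have h1 := Int.floor_le (t / w)
  have h2 := Int.lt_floor_add_one (t / w)
  rw [le_div_iff₀ hw] at h1
  rw [div_lt_iff₀ hw] at h2
  exact ⟨h1, by linarith⟩

theorem DensLim_floor_unique {t w : ℝ} (hw : 0 < w) {p : ℤ} (h1 : (p : ℝ) * w ≤ t)
    (h2 : t < (p : ℝ) * w + w) : p = ⌊t / w⌋ := by
  symm
  rw [Int.floor_eq_iff]
  constructor
  · rwa [le_div_iff₀ hw]
  · rw [div_lt_iff₀ hw]; linarith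

theorem DensLim_ball {A : Set Plane} {m0 m1 : Plane} {l0 l1 w η : ℝ} (hw : 0 < w)
    (hD : l0 * l1 * (m0 0 * m1 1 - m0 1 * m1 0) ≠ 0)
    (h : ∀ p s : ℤ, volume (A ∩ Win m0 m1 l0 l1 (p * w) (s * w) w)
      ≤ ENNReal.ofReal η * volume (Win m0 m1 l0 l1 (p * w) (s * w) w)) :
    ∃ ρ : ℝ, 0 ≤ ρ ∧ ∀ R : ℝ, volume (A ∩ ball 0 R)
      ≤ ENNReal.ofReal η * volume (ball (0 : Plane) (R + ρ + 1)) := by
  obtain ⟨ρ, hρ, hd⟩ := diam_win m0 m1 l0 l1 w hD
  refine ⟨ρ, hρ, fun R => ?_⟩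
  let W : ℤ × ℤ → Set Plane := fun i => Win m0 m1 l0 l1 (i.1 * w) (i.2 * w) w
  let I : Set (ℤ × ℤ) := {i | (W i ∩ ball 0 R).Nonempty}
  have hcov : A ∩ ball 0 R ⊆ ⋃ i : I, A ∩ W i := by
    rintro x ⟨hxA, hxR⟩
    have hxW : x ∈ W (⌊l0 * inner ℝ m0 x / w⌋, ⌊l1 * inner ℝ m1 x / w⌋) :=
      ⟨DensLim_mem_floor hw, DensLim_mem_floor hw⟩
    exact Set.mem_iUnion.2 ⟨⟨_, ⟨x, hxW, hxR⟩⟩, hxA, hxW⟩
  have hdisj : Pairwise (Function.onFun Disjoint fun i : I => W i) := by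
    rintro ⟨i, hi⟩ ⟨j, hj⟩ hij
    refine Set.disjoint_left.2 fun x hx hy => hij ?_
    obtain ⟨⟨a1, a2⟩, a3, a4⟩ := hx
    obtain ⟨⟨b1, b2⟩, b3, b4⟩ := hy
    have e1 : i.1 = j.1 :=
      (DensLim_floor_unique hw a1 a2).trans (DensLim_floor_unique hw b1 b2).symm
    have e2 : i.2 = j.2 :=
      (DensLim_floor_unique hw a3 a4).trans (DensLim_floor_unique hw b3 b4).symm
    exact Subtype.ext (Prod.ext e1 e2)
  have hball : (⋃ i : I, W i) ⊆ ball (0 : Plane) (R + ρ + 1) := by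
    intro x hx
    obtain ⟨⟨i, y, hyW, hyR⟩, hx⟩ := Set.mem_iUnion.1 hx
    have h1 := hd _ _ x hx y hyW
    rw [mem_ball] at hyR ⊢
    have h2 := dist_triangle x y 0
    linarith
  calc volume (A ∩ ball 0 R) ≤ volume (⋃ i : I, A ∩ W i) := measure_mono hcov
    _ ≤ ∑' i : I, volume (A ∩ W i) := measure_iUnion_le _
    _ ≤ ∑' i : I, ENNReal.ofReal η * volume (W i) := ENNReal.tsum_le_tsum fun i => h _ _
    _ = ENNReal.ofReal η * ∑' i : I, volume (W i) := ENNReal.tsum_mul_left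
    _ = ENNReal.ofReal η * volume (⋃ i : I, W i) := by
        rw [measure_iUnion hdisj fun i => meas_win _ _ _ _ _ _ _]
    _ ≤ ENNReal.ofReal η * volume (ball (0 : Plane) (R + ρ + 1)) := by
        gcongr

theorem DensLim_lim (η ρ : ℝ) :
    Tendsto (fun R : ℝ => η * ((R + ρ + 1) / R) ^ 2) atTop (nhds η) := by
  have h1 : Tendsto (fun R : ℝ => η * (1 + (ρ + 1) * R⁻¹) ^ 2) atTop
      (nhds (η * (1 + (ρ + 1) * 0) ^ 2)) :=
    ((tendsto_inv_atTop_zero.const_mul (ρ + 1)).const_add 1).pow 2 |>.const_mul η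
  rw [mul_zero, add_zero, one_pow, mul_one] at h1
  refine h1.congr' ?_
  filter_upwards [eventually_gt_atTop 0] with R hR
  have : (R + ρ + 1) / R = 1 + (ρ + 1) * R⁻¹ := by field_simp; ring
  rw [this]

theorem dens_le {A : Set Plane} {m0 m1 : Plane} {l0 l1 w η : ℝ} (hw : 0 < w) (hη : 0 ≤ η)
    (hD : l0 * l1 * (m0 0 * m1 1 - m0 1 * m1 0) ≠ 0)
    (h : ∀ p s : ℤ, volume (A ∩ Win m0 m1 l0 l1 (p * w) (s * w) w)
      ≤ ENNReal.ofReal η * volume (Win m0 m1 l0 l1 (p * w) (s * w) w)) :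
    limsup (fun R : ℝ => volume (A ∩ ball 0 R) / ENNReal.ofReal (Real.pi * R ^ 2)) atTop
      ≤ ENNReal.ofReal η := by
  obtain ⟨ρ, hρ, hb⟩ := DensLim_ball hw hD h
  have h1 : Tendsto (fun R : ℝ => ENNReal.ofReal (η * ((R + ρ + 1) / R) ^ 2)) atTop
      (nhds (ENNReal.ofReal η)) := ENNReal.tendsto_ofReal (DensLim_lim η ρ)
  rw [← h1.limsup_eq]
  refine limsup_le_limsup ?_
  filter_upwards [eventually_gt_atTop 0] with R hR
  have hpos : 0 < Real.pi * R ^ 2 := by positivity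
  refine ENNReal.div_le_of_le_mul ?_
  refine (hb R).trans ?_
  rw [EuclideanSpace.volume_ball_fin_two, ← ENNReal.ofReal_pow (by linarith),
    ← ENNReal.ofReal_mul (by positivity), ← ENNReal.ofReal_mul hη,
    ← ENNReal.ofReal_mul (by positivity)]
  refine ENNReal.ofReal_le_ofReal (le_of_eq ?_)
  field_simp

end Pool.H67.TS
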