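import Pool.Agent.H67.TS.Defs

/-!
# Enum (~80 lines): enumeration of a finite set of reals with end points

* `enum_exists`: take `S' = insert lo (insert hi S)`, `k + 1 = S'.card`, `e = S'.orderEmbOfFin rfl`, and
  `X i = e ⟨i, _⟩` for `i ≤ n := card - 1`, `X i = hi + (i - n)` for `i > n`.  `e 0 = min' = lo`, `e (last) = max' = hi`
  (`Finset.orderEmbOfFin_zero`, `Finset.orderEmbOfFin_last`; all elements lie in `[lo, hi]`).
  (Alternatively induction on `S`, or `List` sort.)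
* `gap_exists`: `X` strictly increasing with `X 0 ≤ p - s`, `p + s ≤ X n`, `0 < s`, and no `X i` (`i ≤ n`) in the open interval `(p-s, p+s)`.
  Let `g` be the largest `i ≤ n` with `X i ≤ p - s` (`Nat.findGreatest`); `g < n` as `X n ≥ p + s > p - s`; `X (g+1) > p - s`, hence
  `X (g+1) ≥ p + s`.
-/

set_option autoImplicit false

namespace Pool.H67.TS

theorem enum_exists (S : Finset ℝ) {lo hi : ℝ} (h : lo < hi) (hS : ∀ s ∈ S, lo ≤ s ∧ s ≤ hi) :
    ∃ (n : ℕ) (X : ℕ → ℝ), StrictMono X ∧ X 0 = lo ∧ X n = hi ∧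
      (∀ s ∈ S, ∃ i ≤ n, X i = s) ∧ (∀ i ≤ n, X i ∈ S ∨ X i = lo ∨ X i = hi) := by
  sorry

theorem gap_exists {X : ℕ → ℝ} (hX : StrictMono X) (n : ℕ) {p s : ℝ} (hs : 0 < s)
    (h0 : X 0 ≤ p - s) (hn : p + s ≤ X n) (hgap : ∀ i ≤ n, s ≤ |X i - p|) :
    ∃ g < n, X g ≤ p - s ∧ p + s ≤ X (g + 1) := by
  sorry

end Pool.H67.TS
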