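import Pool.Agent.H67.TS.Defs

/-!
# Normals (~150 lines): the frame of three directions

`n 0, n 1, n 2` pairwise linearly independent in the plane.  Let `det x y = x 0 * y 1 - x 1 * y 0`,
`a₀ = det (n 1) (n 2)`, `a₁ = det (n 2) (n 0)`, `a₂ = det (n 0) (n 1)`; all `≠ 0` by linear independence, and
`a₀ • n 0 + a₁ • n 1 + a₂ • n 2 = 0` (coordinates, `ring`).  Put `S = ∑ |a_i| ‖n i‖ > 0`, `l_i = |a_i| ‖n i‖ / S`, `q_i = 1 - 2 l_i`,
`m i = (sign a_i / ‖n i‖) • n i` (`n i = e • m i` with `e = sign a_i * ‖n i‖ ≠ 0`).  Then `‖m i‖ = 1`, `∑ l_i = 1`, `∑ l_i • m i = 0`.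

The determinant formula: write `m i = (x_i, y_i)` with `x_i² + y_i² = 1`, `D = x₀y₁ - x₁y₀`, `C = x₀x₁ + y₀y₁`, `C² + D² = 1`.  From
`l₂ m₂ = -(l₀m₀ + l₁m₁)`: `l₂² = l₀² + l₁² + 2 l₀ l₁ C`.  So `4 (l₀l₁D)² = 4 l₀²l₁² - (2 l₀l₁C)² = 4l₀²l₁² - (l₂² - l₀² - l₁²)²
= (2l₀l₁ + l₀² + l₁² - l₂²)(2l₀l₁ - l₀² - l₁² + l₂²) = (l₀+l₁+l₂)(l₀+l₁-l₂)(l₂+l₀-l₁)(l₂-l₀+l₁) = 1 * q₂ q₁ q₀`.
(`(l₀l₁D)² = q₀q₁q₂/4`.)  `D ≠ 0` (`m 0, m 1` are nonzero multiples of the independent `n 0, n 1`), so `q₀q₁q₂ > 0`; and `q_i + q_j = 2 l_k > 0`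
for each pair, so at most one `q` is negative, hence (product `> 0`) none: all `q_i > 0` (if `q₀ ≤ 0` then `q₁, q₂ > 0` and the product is `≤ 0`).
`det_ne_zero`: from `LinearIndependent ℝ ![u, v]` deduce `u 0 * v 1 - u 1 * v 0 ≠ 0` (otherwise `v 1 • u - u 1 • v = 0` and `v 0 • u - u 0 • v = 0`
are relations, so all coordinates vanish and `u = 0`; `LinearIndependent.pair_iff`).
-/

set_option autoImplicit false

namespace Pool.H67.TS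

theorem Normals_det {l0 l1 l2 x0 y0 x1 y1 x2 y2 : ℝ} (h0 : x0 ^ 2 + y0 ^ 2 = 1) (h1 : x1 ^ 2 + y1 ^ 2 = 1)
    (h2 : x2 ^ 2 + y2 ^ 2 = 1) (hx : l0 * x0 + l1 * x1 + l2 * x2 = 0) (hy : l0 * y0 + l1 * y1 + l2 * y2 = 0)
    (hs : l0 + l1 + l2 = 1) :
    (l0 * l1 * (x0 * y1 - y0 * x1)) ^ 2 = (1 - 2 * l0) * (1 - 2 * l1) * (1 - 2 * l2) / 4 := by
  have hC : l2 ^ 2 = l0 ^ 2 + l1 ^ 2 + 2 * l0 * l1 * (x0 * x1 + y0 * y1) := by
    have e1 : l2 * x2 = -(l0 * x0 + l1 * x1) := by linarith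
    have e2 : l2 * y2 = -(l0 * y0 + l1 * y1) := by linarith
    have e3 : l2 ^ 2 = (l2 * x2) ^ 2 + (l2 * y2) ^ 2 := by
      have : (l2 * x2) ^ 2 + (l2 * y2) ^ 2 = l2 ^ 2 * (x2 ^ 2 + y2 ^ 2) := by ring
      rw [this, h2, mul_one]
    rw [e3, e1, e2]
    linear_combination l0 ^ 2 * h0 + l1 ^ 2 * h1
  have hCD : (x0 * x1 + y0 * y1) ^ 2 + (x0 * y1 - y0 * x1) ^ 2 = 1 := by
    have : (x0 * x1 + y0 * y1) ^ 2 + (x0 * y1 - y0 * x1) ^ 2 = (x0 ^ 2 + y0 ^ 2) * (x1 ^ 2 + y1 ^ 2) := by ring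
    rw [this, h0, h1, one_mul]
  obtain ⟨C, hCe⟩ : ∃ C, C = x0 * x1 + y0 * y1 := ⟨_, rfl⟩
  obtain ⟨D, hDe⟩ : ∃ D, D = x0 * y1 - y0 * x1 := ⟨_, rfl⟩
  rw [← hCe, ← hDe] at hCD
  rw [← hCe] at hC
  rw [← hDe]
  have hl2 : l2 = 1 - l0 - l1 := by linarith
  have e4 : (l0 * l1 * D) ^ 2 = l0 ^ 2 * l1 ^ 2 - (l0 * l1 * C) ^ 2 := by
    linear_combination l0 ^ 2 * l1 ^ 2 * hCD
  have e5 : l0 * l1 * C = (l2 ^ 2 - l0 ^ 2 - l1 ^ 2) / 2 := by linarith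
  rw [e4, e5, hl2]
  ring

theorem Normals_pos {l0 l1 l2 : ℝ} (h0 : 0 < l0) (h1 : 0 < l1) (h2 : 0 < l2) (hs : l0 + l1 + l2 = 1)
    (hp : 0 < (1 - 2 * l0) * (1 - 2 * l1) * (1 - 2 * l2)) :
    0 < 1 - 2 * l0 ∧ 0 < 1 - 2 * l1 ∧ 0 < 1 - 2 * l2 := by
  refine ⟨?_, ?_, ?_⟩
  · by_contra hc
    have a1 : 0 < 1 - 2 * l1 := by linarith
    have a2 : 0 < 1 - 2 * l2 := by linarith
    have a3 : 0 < (1 - 2 * l1) * (1 - 2 * l2) := mul_pos a1 a2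
    nlinarith
  · by_contra hc
    have a1 : 0 < 1 - 2 * l0 := by linarith
    have a2 : 0 < 1 - 2 * l2 := by linarith
    have a3 : 0 < (1 - 2 * l0) * (1 - 2 * l2) := mul_pos a1 a2
    nlinarith
  · by_contra hc
    have a1 : 0 < 1 - 2 * l0 := by linarith
    have a2 : 0 < 1 - 2 * l1 := by linarith
    have a3 : 0 < (1 - 2 * l0) * (1 - 2 * l1) := mul_pos a1 a2
    nlinarith

theorem det_ne_zero {u v : Plane} (h : LinearIndependent ℝ ![u, v]) :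
    u 0 * v 1 - u 1 * v 0 ≠ 0 := by
  intro hd
  rw [LinearIndependent.pair_iff] at h
  have h1 := h (v 1) (-(u 1)) (by
    ext i
    fin_cases i
    · simp
      linarith
    · simp
      ring)
  have h2 := h (v 0) (-(u 0)) (by
    ext i
    fin_cases i
    · simp
      ring
    · simp
      linarith)
  have hu : (1 : ℝ) • u + (0 : ℝ) • v = 0 := by
    ext i
    fin_cases i
    · simp
      linarith [h2.2]
    · simp
      linarith [h1.2]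
  exact one_ne_zero (h 1 0 hu).1

theorem frame_exists (n : Fin 3 → Plane)
    (hn : ∀ i j, i ≠ j → LinearIndependent ℝ ![n i, n j]) :
    ∃ (m : Fin 3 → Plane) (q : Fin 3 → ℝ), Frame n m q := by
  have d0 := det_ne_zero (hn 1 2 (by decide))
  have d1 := det_ne_zero (hn 2 0 (by decide))
  have d2 := det_ne_zero (hn 0 1 (by decide))
  obtain ⟨a, ha⟩ : ∃ a : Fin 3 → ℝ, a = ![n 1 0 * n 2 1 - n 1 1 * n 2 0, n 2 0 * n 0 1 - n 2 1 * n 0 0,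
    n 0 0 * n 1 1 - n 0 1 * n 1 0] := ⟨_, rfl⟩
  have ha0 : a 0 = n 1 0 * n 2 1 - n 1 1 * n 2 0 := by rw [ha]; rfl
  have ha1 : a 1 = n 2 0 * n 0 1 - n 2 1 * n 0 0 := by rw [ha]; rfl
  have ha2 : a 2 = n 0 0 * n 1 1 - n 0 1 * n 1 0 := by rw [ha]; rfl
  have hane : ∀ i, a i ≠ 0 := by
    intro i
    fin_cases i
    · show a 0 ≠ 0
      rw [ha0]; exact d0
    · show a 1 ≠ 0
      rw [ha1]; exact d1
    · show a 2 ≠ 0
      rw [ha2]; exact d2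
  have hnne : ∀ i, n i ≠ 0 := by
    intro i hi
    fin_cases i
    · have hi' : n 0 = 0 := hi
      rw [hi'] at d1
      simp at d1
    · have hi' : n 1 = 0 := hi
      rw [hi'] at d0
      simp at d0
    · have hi' : n 2 = 0 := hi
      rw [hi'] at d0
      simp at d0
  have hnpos : ∀ i, 0 < ‖n i‖ := fun i => norm_pos_iff.mpr (hnne i)
  have hapos : ∀ i, 0 < |a i| := fun i => abs_pos.mpr (hane i)
  have hmpos : ∀ i, 0 < |a i| * ‖n i‖ := fun i => mul_pos (hapos i) (hnpos i)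
  obtain ⟨S, hS⟩ : ∃ S : ℝ, S = |a 0| * ‖n 0‖ + |a 1| * ‖n 1‖ + |a 2| * ‖n 2‖ := ⟨_, rfl⟩
  have hSpos : 0 < S := by
    rw [hS]
    linarith [hmpos 0, hmpos 1, hmpos 2]
  obtain ⟨l, hl⟩ : ∃ l : Fin 3 → ℝ, ∀ i, l i = |a i| * ‖n i‖ / S := ⟨fun i => |a i| * ‖n i‖ / S, fun i => rfl⟩
  obtain ⟨m, hm⟩ : ∃ m : Fin 3 → Plane, ∀ i, m i = (a i / |a i| / ‖n i‖) • n i :=
    ⟨fun i => (a i / |a i| / ‖n i‖) • n i, fun i => rfl⟩
  have hlpos : ∀ i, 0 < l i := by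
    intro i
    rw [hl]
    exact div_pos (hmpos i) hSpos
  have hlsum : l 0 + l 1 + l 2 = 1 := by
    rw [hl, hl, hl, ← add_div, ← add_div, ← hS]
    exact div_self hSpos.ne'
  have hunit : ∀ i, ‖m i‖ = 1 := by
    intro i
    rw [hm, norm_smul, Real.norm_eq_abs, abs_div, abs_div, abs_abs, abs_of_pos (hnpos i)]
    have h1 := (hapos i).ne'
    have h2 := (hnpos i).ne'
    field_simp
  have hcoef : ∀ i, l i • m i = (a i / S) • n i := by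
    intro i
    rw [hm, hl, smul_smul]
    congr 1
    have h1 := (hapos i).ne'
    have h2 := (hnpos i).ne'
    have h3 := hSpos.ne'
    field_simp
  have hrel : l 0 • m 0 + l 1 • m 1 + l 2 • m 2 = 0 := by
    rw [hcoef, hcoef, hcoef]
    ext i
    fin_cases i
    · simp
      rw [ha0, ha1, ha2]
      ring
    · simp
      rw [ha0, ha1, ha2]
      ring
  have hsq : ∀ i, (m i 0) ^ 2 + (m i 1) ^ 2 = 1 := by
    intro i
    have h1 := EuclideanSpace.norm_sq_eq (m i)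
    rw [hunit, Fin.sum_univ_two, Real.norm_eq_abs, Real.norm_eq_abs, sq_abs, sq_abs] at h1
    linarith
  have hx : l 0 * m 0 0 + l 1 * m 1 0 + l 2 * m 2 0 = 0 := by
    have := congrArg (fun v : Plane => v 0) hrel
    simpa using this
  have hy : l 0 * m 0 1 + l 1 * m 1 1 + l 2 * m 2 1 = 0 := by
    have := congrArg (fun v : Plane => v 1) hrel
    simpa using this
  have hdet := Normals_det (hsq 0) (hsq 1) (hsq 2) hx hy hlsum
  have hDne : m 0 0 * m 1 1 - m 0 1 * m 1 0 ≠ 0 := by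
    rw [hm 0, hm 1]
    simp only [PiLp.smul_apply, smul_eq_mul]
    have e : a 0 / |a 0| / ‖n 0‖ * n 0 0 * (a 1 / |a 1| / ‖n 1‖ * n 1 1) -
        a 0 / |a 0| / ‖n 0‖ * n 0 1 * (a 1 / |a 1| / ‖n 1‖ * n 1 0) =
        (a 0 / |a 0| / ‖n 0‖) * (a 1 / |a 1| / ‖n 1‖) * (n 0 0 * n 1 1 - n 0 1 * n 1 0) := by ring
    rw [e]
    refine mul_ne_zero (mul_ne_zero ?_ ?_) d2
    · exact div_ne_zero (div_ne_zero (hane 0) (hapos 0).ne') (hnpos 0).ne'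
    · exact div_ne_zero (div_ne_zero (hane 1) (hapos 1).ne') (hnpos 1).ne'
  have hprod : 0 < (1 - 2 * l 0) * (1 - 2 * l 1) * (1 - 2 * l 2) := by
    have h1 : 0 < (l 0 * l 1 * (m 0 0 * m 1 1 - m 0 1 * m 1 0)) ^ 2 := by
      have := mul_ne_zero (mul_ne_zero (hlpos 0).ne' (hlpos 1).ne') hDne
      positivity
    linarith
  have hsx := Normals_pos (hlpos 0) (hlpos 1) (hlpos 2) hlsum hprod
  refine ⟨m, fun i => 1 - 2 * l i, hunit, ?_, ⟨hsx.1, hsx.2.1, hsx.2.2, by linarith⟩, ?_, ?_⟩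
  · intro i
    refine ⟨‖n i‖ * (|a i| / a i), mul_ne_zero (hnpos i).ne' (div_ne_zero (hapos i).ne' (hane i)), ?_⟩
    rw [hm, smul_smul]
    have e : ‖n i‖ * (|a i| / a i) * (a i / |a i| / ‖n i‖) = 1 := by
      have h1 := (hapos i).ne'
      have h2 := (hnpos i).ne'
      have h3 := hane i
      field_simp
    rw [e, one_smul]
  · have e : ∀ i, (1 - (1 - 2 * l i)) / 2 = l i := by
      intro i
      ring
    show ((1 - (1 - 2 * l 0)) / 2) • m 0 + ((1 - (1 - 2 * l 1)) / 2) • m 1 + ((1 - (1 - 2 * l 2)) / 2) • m 2 = 0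
    rw [e, e, e]
    exact hrel
  · show ((1 - (1 - 2 * l 0)) / 2 * ((1 - (1 - 2 * l 1)) / 2) * (m 0 0 * m 1 1 - m 0 1 * m 1 0)) ^ 2
      = (1 - 2 * l 0) * (1 - 2 * l 1) * (1 - 2 * l 2) / 4
    have e : ∀ i, (1 - (1 - 2 * l i)) / 2 = l i := by
      intro i
      ring
    rw [e, e]
    exact hdet

end Pool.H67.TS
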