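import Pool.Agent.H67.TS.Window
import Pool.Agent.H67.TS.Normals

/-!
# Main: assembly

`frame_exists`, `window_bound` for every `ε > 0` and `dens_le` give `upperDensity ≤ ofReal (δ + ε)` for all `ε > 0`.
-/

set_option autoImplicit false

open MeasureTheory Metric Filter

namespace Pool.H67.TS

theorem three_directions {ι : Type*} (c : ι → Plane) (r : ι → ℝ) (hp : IsPacking c r)
    (hr : ∃ M : ℝ, ∀ i, r i ≤ M) (n : Fin 3 → Plane)
    (hn : ∀ i j, i ≠ j → LinearIndependent ℝ ![n i, n j]) (hs : SeparableIn n c r) :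
    upperDensity c r ≤ ENNReal.ofReal (11 * Real.pi / (24 * √3)) := by
  obtain ⟨m, q, hF⟩ := frame_exists n hn
  obtain ⟨M₀, hM₀⟩ := hr
  have hM : ∀ i, r i ≤ max M₀ 0 := fun i => (hM₀ i).trans (le_max_left _ _)
  have hM0 : (0 : ℝ) ≤ max M₀ 0 := le_max_right _ _
  have hδ : (0 : ℝ) ≤ 11 * Real.pi / (24 * √3) := by positivity
  have hD : (1 - q 0) / 2 * ((1 - q 1) / 2) * (m 0 0 * m 1 1 - m 0 1 * m 1 0) ≠ 0 := by
    intro h0
    have h1 := hF.det
    rw [h0] at h1
    have h2 : 0 < q 0 * q 1 * q 2 := mul_pos (mul_pos hF.simplex.h1 hF.simplex.h2) hF.simplex.h3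
    nlinarith
  have key : ∀ ε : ℝ, 0 < ε →
      upperDensity c r ≤ ENNReal.ofReal (11 * Real.pi / (24 * √3) + ε) := by
    intro ε hε
    obtain ⟨w, hw, h⟩ := window_bound hp hM hM0 hF hs hε
    exact dens_le hw (by positivity) hD (fun p s => h _ _)
  refine ENNReal.le_of_forall_pos_le_add ?_
  intro ε hε _
  have h1 := key ε (by exact_mod_cast hε)
  rw [ENNReal.ofReal_add hδ ε.coe_nonneg, ENNReal.ofReal_coe_nnreal] at h1
  exact h1

end Pool.H67.TS
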