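import Pool.Agent.H67.TS.Defs

/-!
# NumA (elementary inequalities, ~80 lines)

`q₁, q₂, q₃ > 0`, `q₁ + q₂ + q₃ = 1`, `L = Lam q₁ q₂ q₃ = 11 / (24 √3 s)` with `s = √(q₁q₂q₃)`.

* `lam_swap`, `lam_rot`: `Lam` is symmetric (`ring_nf` inside the square root).
* `num_e2`: with `e = q₁q₂ + q₂q₃ + q₃q₁`: `√3 * s ≤ e`, because `e² ≥ 3 q₁q₂q₃ (q₁+q₂+q₃) = 3 q₁q₂q₃`
  (`e² - 3 q₁q₂q₃(q₁+q₂+q₃)` is half a sum of squares).  Hence `11 / 24 ≤ L * e` (as `L * √3 * s = 11/24`).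
* `num_a`: `11/8 ≤ L`: from `num_e2` and `e ≤ (q₁+q₂+q₃)²/3 = 1/3`.
* `num_c`: `1 ≤ 2 L (1-q₁)(1-q₂)`: `(1-q₁)(1-q₂) = q₃ + q₁q₂ ≥ 2 √(q₃ q₁q₂) = 2 s` (AM-GM) and
  `2 L 2 s = 4 * 11 / (24 √3) = 11 / (6 √3) ≥ 1` since `√3 ≤ 11/6`.
* `num_b`: `1 ≤ (L - 1/8) (1 - q₁²)`: put `t = √q₁ ∈ (0,1)`.  `q₂ q₃ ≤ ((1-q₁)/2)²`, so `s ≤ t (1-q₁)/2` and
  `L ≥ 11 / (12 √3 t (1-q₁)) ≥ (529/1000) / (t (1-q₁))` (`√3 ≤ 17321/10000`, `11/12/1.7321 = 0.5292..`).  So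
  `(L - 1/8)(1-q₁²) ≥ (529/1000) (1+t²) / t - (1 - t⁴)/8`, and it remains
  `529/1000 (1+t²) - t (1-t⁴)/8 - t ≥ 0` on `[0,1]`, i.e. `529/1000 (1+t²) - 9/8 t + t⁵/8 ≥ 0`.
  (minimum about .0083 at t = .81; proof e.g.: `t⁵ ≥ c⁵ + 5c⁴(t-c)` (tangent line, `c = 81/100`) is not quite
  needed - `nlinarith [sq_nonneg (t - 81/100), ..., mul_nonneg]`, or write
  `t⁵ = c⁵+5c⁴(t-c)+(t-c)²(t³+2ct²+3c²t+4c³)` and drop the last term, leaving the quadratic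
  `529/1000 (1+t²) - 9/8 t + (5c⁴ t - 4c⁵)/8` with negative discriminant.)
-/

set_option autoImplicit false

namespace Pool.H67.TS

theorem lam_swap (q1 q2 q3 : ℝ) : Lam q2 q1 q3 = Lam q1 q2 q3 := by
  unfold Lam
  rw [mul_comm q2 q1]

theorem lam_rot (q1 q2 q3 : ℝ) : Lam q2 q3 q1 = Lam q1 q2 q3 := by
  unfold Lam
  have h : q2 * q3 * q1 = q1 * q2 * q3 := by ring
  rw [h]

/-- Basic facts on the square roots. -/
theorem NumA_basic {q1 q2 q3 : ℝ} (h : Simplex q1 q2 q3) :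
    0 < √(3 : ℝ) ∧ √(3 : ℝ) ^ 2 = 3 ∧ 0 < √(q1 * q2 * q3) ∧ √(q1 * q2 * q3) ^ 2 = q1 * q2 * q3 ∧
      0 < Lam q1 q2 q3 ∧ Lam q1 q2 q3 * (√(3 : ℝ) * √(q1 * q2 * q3)) = 11 / 24 := by
  have h1 := h.h1
  have h2 := h.h2
  have h3 := h.h3
  have hq : 0 < q1 * q2 * q3 := by positivity
  have a1 : 0 < √(3 : ℝ) := by positivity
  have a2 : √(3 : ℝ) ^ 2 = 3 := Real.sq_sqrt (by norm_num)
  have a3 : 0 < √(q1 * q2 * q3) := Real.sqrt_pos.2 hq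
  have a4 : √(q1 * q2 * q3) ^ 2 = q1 * q2 * q3 := Real.sq_sqrt hq.le
  refine ⟨a1, a2, a3, a4, ?_, ?_⟩
  · unfold Lam
    positivity
  · unfold Lam
    field_simp

theorem NumA_sqrt3 : √(3 : ℝ) ≤ 17321 / 10000 := by
  rw [Real.sqrt_le_left (by norm_num)]
  norm_num

theorem num_e2 {q1 q2 q3 : ℝ} (h : Simplex q1 q2 q3) :
    11 / 24 ≤ Lam q1 q2 q3 * (q1 * q2 + q2 * q3 + q3 * q1) := by
  obtain ⟨a1, a2, a3, a4, a5, a6⟩ := NumA_basic h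
  have h1 := h.h1
  have h2 := h.h2
  have h3 := h.h3
  have hs := h.sum
  have he : 0 < q1 * q2 + q2 * q3 + q3 * q1 := by positivity
  have key : √(3 : ℝ) * √(q1 * q2 * q3) ≤ q1 * q2 + q2 * q3 + q3 * q1 := by
    refine abs_le_of_sq_le_sq' ?_ he.le |>.2
    rw [mul_pow, a2, a4]
    have h4 : 3 * (q1 * q2 * q3) = 3 * (q1 * q2 * q3) * (q1 + q2 + q3) := by rw [hs, mul_one]
    rw [h4]
    nlinarith [sq_nonneg (q1 * q2 - q2 * q3), sq_nonneg (q2 * q3 - q3 * q1),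
      sq_nonneg (q3 * q1 - q1 * q2)]
  calc (11 : ℝ) / 24 = Lam q1 q2 q3 * (√(3 : ℝ) * √(q1 * q2 * q3)) := a6.symm
    _ ≤ _ := mul_le_mul_of_nonneg_left key a5.le

theorem num_a {q1 q2 q3 : ℝ} (h : Simplex q1 q2 q3) : 11 / 8 ≤ Lam q1 q2 q3 := by
  obtain ⟨a1, a2, a3, a4, a5, a6⟩ := NumA_basic h
  have h4 := num_e2 h
  have h5 : q1 * q2 + q2 * q3 + q3 * q1 ≤ 1 / 3 := by
    have hs := h.sum
    have h6 : (q1 + q2 + q3) ^ 2 = 1 := by rw [hs]; norm_num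
    nlinarith [sq_nonneg (q1 - q2), sq_nonneg (q2 - q3), sq_nonneg (q3 - q1)]
  have h6 := mul_le_mul_of_nonneg_left h5 a5.le
  linarith

theorem num_b {q1 q2 q3 : ℝ} (h : Simplex q1 q2 q3) :
    1 ≤ (Lam q1 q2 q3 - 1 / 8) * (1 - q1 ^ 2) := by
  obtain ⟨a1, a2, a3, a4, a5, a6⟩ := NumA_basic h
  have h1 := h.h1
  have h2 := h.h2
  have h3 := h.h3
  have hs := h.sum
  have b3 := NumA_sqrt3
  set L := Lam q1 q2 q3 with hL
  set t := √q1 with ht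
  have t0 : 0 < t := Real.sqrt_pos.2 h1
  have t2 : t ^ 2 = q1 := Real.sq_sqrt h1.le
  have q1lt : q1 < 1 := by linarith
  have t1 : t < 1 := by nlinarith
  -- upper bound for the root of the product
  have s1 : √(q1 * q2 * q3) ≤ t * (1 - q1) / 2 := by
    have hnn : 0 ≤ t * (1 - q1) / 2 := by
      have : 0 < 1 - q1 := by linarith
      positivity
    refine abs_le_of_sq_le_sq' ?_ hnn |>.2
    rw [a4]
    have e1 : (t * (1 - q1) / 2) ^ 2 = q1 * ((1 - q1) / 2) ^ 2 := by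
      rw [← t2]; ring
    rw [e1]
    have e2 : q2 * q3 ≤ ((1 - q1) / 2) ^ 2 := by
      have e3 : 1 - q1 = q2 + q3 := by linarith
      rw [e3]
      nlinarith [sq_nonneg (q2 - q3)]
    calc q1 * q2 * q3 = q1 * (q2 * q3) := by ring
      _ ≤ _ := mul_le_mul_of_nonneg_left e2 h1.le
  -- lower bound for `L`
  have L1 : 529 / 1000 ≤ L * (t * (1 - q1)) := by
    have e1 : √(3 : ℝ) * √(q1 * q2 * q3) ≤ 17321 / 10000 * (t * (1 - q1) / 2) :=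
      mul_le_mul b3 s1 a3.le (by norm_num)
    have e2 := mul_le_mul_of_nonneg_left e1 a5.le
    rw [a6] at e2
    nlinarith
  -- polynomial inequality
  have pol : 0 ≤ 529 / 1000 * (1 + t ^ 2) - 9 / 8 * t + t ^ 5 / 8 := by
    have e1 : (81 / 100 : ℝ) ^ 5 + 5 * (81 / 100) ^ 4 * (t - 81 / 100) ≤ t ^ 5 := by
      have e2 : t ^ 5 - ((81 / 100 : ℝ) ^ 5 + 5 * (81 / 100) ^ 4 * (t - 81 / 100)) =
          (t - 81 / 100) ^ 2 * (t ^ 3 + 2 * (81 / 100) * t ^ 2 + 3 * (81 / 100) ^ 2 * t +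
            4 * (81 / 100) ^ 3) := by ring
      have e3 : 0 ≤ (t - 81 / 100) ^ 2 * (t ^ 3 + 2 * (81 / 100) * t ^ 2 + 3 * (81 / 100) ^ 2 * t +
            4 * (81 / 100) ^ 3) := by positivity
      linarith
    nlinarith [sq_nonneg (t - 81 / 100), sq_nonneg (t - 8 / 10), sq_nonneg (t - 9 / 10)]
  -- assemble: multiply by `t`
  have hq : 1 - q1 ^ 2 = (1 - q1) * (1 + t ^ 2) := by rw [← t2]; ring
  have e1 : t ≤ t * ((L - 1 / 8) * (1 - q1 ^ 2)) := by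
    have e2 : t * ((L - 1 / 8) * (1 - q1 ^ 2)) =
        (L * (t * (1 - q1))) * (1 + t ^ 2) - t * (1 - t ^ 4) / 8 := by
      rw [← t2]; ring
    rw [e2]
    have e3 : 529 / 1000 * (1 + t ^ 2) ≤ (L * (t * (1 - q1))) * (1 + t ^ 2) :=
      mul_le_mul_of_nonneg_right L1 (by positivity)
    nlinarith
  by_contra hc
  have hc' : (L - 1 / 8) * (1 - q1 ^ 2) < 1 := lt_of_not_ge hc
  have := mul_lt_mul_of_pos_left hc' t0
  linarith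

theorem num_c {q1 q2 q3 : ℝ} (h : Simplex q1 q2 q3) :
    1 ≤ 2 * Lam q1 q2 q3 * ((1 - q1) * (1 - q2)) := by
  obtain ⟨a1, a2, a3, a4, a5, a6⟩ := NumA_basic h
  have h1 := h.h1
  have h2 := h.h2
  have h3 := h.h3
  have hs := h.sum
  have b3 := NumA_sqrt3
  have e0 : (1 - q1) * (1 - q2) = q3 + q1 * q2 := by
    have : q3 = 1 - q1 - q2 := by linarith
    rw [this]; ring
  have e1 : 2 * √(q1 * q2 * q3) ≤ q3 + q1 * q2 := by
    have hnn : 0 ≤ q3 + q1 * q2 := by positivity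
    refine abs_le_of_sq_le_sq' ?_ hnn |>.2
    rw [mul_pow, a4]
    nlinarith [sq_nonneg (q3 - q1 * q2)]
  rw [e0]
  have e2 : 2 * Lam q1 q2 q3 * (2 * √(q1 * q2 * q3)) ≤ 2 * Lam q1 q2 q3 * (q3 + q1 * q2) :=
    mul_le_mul_of_nonneg_left e1 (by positivity)
  have e3 : 1 ≤ 2 * Lam q1 q2 q3 * (2 * √(q1 * q2 * q3)) := by
    have e4 : √(3 : ℝ) * (2 * Lam q1 q2 q3 * (2 * √(q1 * q2 * q3))) = 11 / 6 := by
      have : √(3 : ℝ) * (2 * Lam q1 q2 q3 * (2 * √(q1 * q2 * q3))) =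
          4 * (Lam q1 q2 q3 * (√(3 : ℝ) * √(q1 * q2 * q3))) := by ring
      rw [this, a6]; norm_num
    by_contra hc
    have hc' := lt_of_not_ge hc
    have := mul_lt_mul_of_pos_left hc' a1
    linarith
  linarith

end Pool.H67.TS
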