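import Pool.Agent.H67.TS.NumA

/-!
# NumB (elementary inequalities, ~80 lines)

`e = q₁q₂+q₂q₃+q₃q₁`, `q₁²+q₂²+q₃² = 1 - 2e`, `e ≤ 1/3`, `L e ≥ 11/24` (`num_e2`), `L ≥ 11/8` (`num_a`).

* `num_e`: `L(1-Σq²) + Σq²/4 = 2 L e + (1-2e)/4 ≥ 11/12 + 1/12 = 1`.
* `num_d`: `L(1-q₁²-q₂²) + Σq²/8 = L(2e + q₃²) + (1-2e)/8`.
   Case `q₃ ≥ 9/50`: `≥ 11/12 + (11/8) q₃² + 1/24 ≥ 1` (needs `q₃² ≥ 1/33`; `(9/50)² = .0324`).
   Case `q₃ < 9/50`: `2e + q₃² = q₃(2-q₃) + 2m` with `m = q₁q₂`, and `q₃(2-q₃) + 2m ≥ 2 √(2 m q₃ (2-q₃))`, so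
   `L(2e+q₃²) ≥ 11/(24√3 √(m q₃)) * 2 √(2-q₃) √2 √(m q₃) = 11 √(2(2-q₃)) / (12 √3) ≥ 1`, since
   `121 * 2 (2-q₃) ≥ 144*3` iff `2 - q₃ ≥ 1.7852`, true as `q₃ < .18`.  (Square-root free version: with
   `s = √(q₁q₂q₃)`, `s² = m q₃`, show `(q₃(2-q₃)+2m)² ≥ 8 q₃ (2-q₃) m ≥ 8 * (182/100) s²`, so
   `q₃(2-q₃)+2m ≥ √(14.56) s ≥ 3.8157 s`, and `11/(24√3 s) * 3.8157 s ≥ 1` iff `√3 ≤ 1.7488..`.)
   Then add the nonnegative rest.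
* `good_lam`: assemble `Good (Lam q₁ q₂ q₃) q₁ q₂ q₃` using `lam_swap`, `lam_rot` and the permuted `Simplex`es.
-/

set_option autoImplicit false

namespace Pool.H67.TS

theorem NumB_sq {q1 q2 q3 : ℝ} (h : Simplex q1 q2 q3) :
    1728 * (q1 * q2 * q3) * Lam q1 q2 q3 ^ 2 = 121 := by
  have hp : 0 < q1 * q2 * q3 := mul_pos (mul_pos h.h1 h.h2) h.h3
  unfold Lam
  generalize q1 * q2 * q3 = p at hp
  rw [div_pow, mul_pow, mul_pow, Real.sq_sqrt (by norm_num : (0 : ℝ) ≤ 3), Real.sq_sqrt hp.le]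
  field_simp
  norm_num

theorem NumB_pos {q1 q2 q3 : ℝ} (h : Simplex q1 q2 q3) : 0 < Lam q1 q2 q3 := by
  have := num_a h
  linarith

theorem NumB_e {q1 q2 q3 : ℝ} (h : Simplex q1 q2 q3) :
    q1 ^ 2 + q2 ^ 2 + q3 ^ 2 = 1 - 2 * (q1 * q2 + q2 * q3 + q3 * q1) ∧
      q1 * q2 + q2 * q3 + q3 * q1 ≤ 1 / 3 := by
  have h1 : (q1 + q2 + q3) ^ 2 = 1 := by rw [h.sum]; norm_num
  constructor
  · linarith
  · nlinarith [sq_nonneg (q1 - q2), sq_nonneg (q2 - q3), sq_nonneg (q1 - q3)]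

theorem NumB_one {x : ℝ} (hx : 0 ≤ x) (h : 1 ≤ x ^ 2) : 1 ≤ x := by
  have h1 : (1 : ℝ) ^ 2 ≤ x ^ 2 := by rw [one_pow]; exact h
  exact (le_abs_self 1).trans (abs_le_of_sq_le_sq h1 hx)

theorem num_d {q1 q2 q3 : ℝ} (h : Simplex q1 q2 q3) :
    1 ≤ Lam q1 q2 q3 * (1 - q1 ^ 2 - q2 ^ 2) + 1 / 8 * (q1 ^ 2 + q2 ^ 2 + q3 ^ 2) := by
  obtain ⟨he1, he2⟩ := NumB_e h
  have hL := NumB_pos h
  have ha := num_a h
  have hsq := NumB_sq h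
  have he := num_e2 h
  have hm : 0 < q1 * q2 := mul_pos h.h1 h.h2
  have h3 := h.h3
  generalize Lam q1 q2 q3 = L at *
  have e1 : 1 - q1 ^ 2 - q2 ^ 2 = 2 * (q1 * q2 + q2 * q3 + q3 * q1) + q3 ^ 2 := by linarith
  rw [e1, he1]
  by_cases hq : 9 / 50 ≤ q3
  · have k1 : (9 / 50 : ℝ) ^ 2 ≤ q3 ^ 2 := pow_le_pow_left₀ (by norm_num) hq 2
    have k2 : 11 / 8 * q3 ^ 2 ≤ L * q3 ^ 2 := mul_le_mul_of_nonneg_right ha (sq_nonneg _)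
    linarith
  · have hq' : q3 < 9 / 50 := not_le.1 hq
    have e2 : 2 * (q1 * q2 + q2 * q3 + q3 * q1) + q3 ^ 2 = q3 * (2 - q3) + 2 * (q1 * q2) := by
      have hs : q1 = 1 - q2 - q3 := by linarith [h.sum]
      rw [hs]
      ring
    have k1 : 1 ≤ L * (q3 * (2 - q3) + 2 * (q1 * q2)) := by
      have hpos : 0 < q3 * (2 - q3) := mul_pos h3 (by linarith)
      refine NumB_one (mul_nonneg hL.le (by linarith)) ?_
      have k2 : 8 * (q3 * (2 - q3)) * (q1 * q2) ≤ (q3 * (2 - q3) + 2 * (q1 * q2)) ^ 2 := by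
        nlinarith [sq_nonneg (q3 * (2 - q3) - 2 * (q1 * q2))]
      have k3 : 8 * (182 / 100) * (q1 * q2 * q3) ≤ 8 * (q3 * (2 - q3)) * (q1 * q2) := by
        have k4 : 0 ≤ (q1 * q2 * q3) * ((2 - q3) - 182 / 100) :=
          mul_nonneg (mul_pos hm h3).le (by linarith)
        nlinarith [k4]
      have k5 := mul_le_mul_of_nonneg_right (k3.trans k2) (sq_nonneg L)
      rw [mul_pow]
      nlinarith [k5, hsq]
    rw [e2]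
    linarith

theorem num_e {q1 q2 q3 : ℝ} (h : Simplex q1 q2 q3) :
    1 ≤ Lam q1 q2 q3 * (1 - q1 ^ 2 - q2 ^ 2 - q3 ^ 2) + 1 / 4 * (q1 ^ 2 + q2 ^ 2 + q3 ^ 2) := by
  obtain ⟨he1, he2⟩ := NumB_e h
  have he := num_e2 h
  have e1 : 1 - q1 ^ 2 - q2 ^ 2 - q3 ^ 2 = 2 * (q1 * q2 + q2 * q3 + q3 * q1) := by linarith
  rw [e1, he1]
  linarith

theorem good_lam {q1 q2 q3 : ℝ} (h : Simplex q1 q2 q3) : Good (Lam q1 q2 q3) q1 q2 q3 := by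
  have h213 : Simplex q2 q1 q3 := ⟨h.h2, h.h1, h.h3, by linarith [h.sum]⟩
  have h312 : Simplex q3 q1 q2 := ⟨h.h3, h.h1, h.h2, by linarith [h.sum]⟩
  have h132 : Simplex q1 q3 q2 := ⟨h.h1, h.h3, h.h2, by linarith [h.sum]⟩
  have h231 : Simplex q2 q3 q1 := ⟨h.h2, h.h3, h.h1, by linarith [h.sum]⟩
  have l213 : Lam q2 q1 q3 = Lam q1 q2 q3 := lam_swap q1 q2 q3
  have l312 : Lam q3 q1 q2 = Lam q1 q2 q3 := (lam_rot q3 q1 q2).symm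
  have l132 : Lam q1 q3 q2 = Lam q1 q2 q3 := (lam_swap q3 q1 q2).trans l312
  have l231 : Lam q2 q3 q1 = Lam q1 q2 q3 := lam_rot q1 q2 q3
  have b2 := num_b h213
  have b3 := num_b h312
  have c13 := num_c h132
  have c23 := num_c h231
  have d13 := num_d h132
  have d23 := num_d h231
  rw [l213] at b2
  rw [l312] at b3
  rw [l132] at c13 d13
  rw [l231] at c23 d23
  exact ⟨h, num_a h, num_b h, b2, b3, num_c h, c13, c23, num_d h, by linarith, by linarith,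
    num_e h⟩

end Pool.H67.TS
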