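import Pool.Agent.H67.TS.Defs

/-!
# Proj (~100 lines): from the geometric to the numerical separation

For a unit vector `m`: `closedBall c r ⊆ lowerHalf m t ↔ ⟪m,c⟫ + r ≤ t` (`r ≥ 0`; the point `c + r • m` is in the ball; conversely Cauchy-Schwarz:
`⟪m, x⟫ = ⟪m, c⟫ + ⟪m, x - c⟫ ≤ ⟪m,c⟫ + ‖x - c‖`), `closedBall c r ⊆ upperHalf m t ↔ t ≤ ⟪m,c⟫ - r`, and `Disjoint (line m t) (ball c r) → r ≤ |t - ⟪m,c⟫|`
(if `|t - ⟪m,c⟫| < r` then `c + (t - ⟪m,c⟫) • m` lies in both).
If `n = e • m`, `e ≠ 0`, then `line n t = line m (t / e)`, and `lowerHalf n t` is `lowerHalf m (t/e)` or `upperHalf m (t/e)` according to the sign of `e`;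
same for `upperHalf`.  So `Separates c r n t i j → Separates c r m (t / e) i j`.
`sepNum_of`: for a finite set `F` (of indices) and `l > 0`: with `t' = l * t`, `h k = l * ⟪m, c k⟫`.
-/

set_option autoImplicit false

open Metric

namespace Pool.H67.TS

theorem separates_smul {ι : Type*} {c : ι → Plane} {r : ι → ℝ} {n m : Plane} {e t : ℝ}
    (he : e ≠ 0) (hn : n = e • m) {i j : ι} (h : Separates c r n t i j) :
    Separates c r m (t / e) i j := by
  sorry

theorem sepNum_of {ι : Type*} {c : ι → Plane} {r : ι → ℝ} (hr : ∀ i, 0 < r i) {m : Plane}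
    (hm : ‖m‖ = 1) {l t : ℝ} (hl : 0 < l) {i j : ι} (h : Separates c r m t i j) (F : Finset ι) :
    SepNum F (fun k => l * inner ℝ m (c k)) r l (l * t) i j := by
  sorry

end Pool.H67.TS
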