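import Pool.Agent.H67.TS.Defs

/-!
# SumA (~100 lines): telescoping sums

* `sum_P`: `P x x' y y' z z'` is the triple difference of `Φ(x,y,z) = psq (-(x+y+z))` up to sign:
  `P x x' y y' z z' = D x x' y y' z - D x x' y y' z'` with `D x x' y y' z = Φ(x,y,z) - Φ(x',y,z) - Φ(x,y',z) + Φ(x',y',z)` etc.
  So three applications of `Finset.sum_range_sub'` (or an induction on `c`, then `b`, then `a`, each time with
  `P x x' y y' z z' + P x x' y y' z' z'' = P x x' y y' z z''` by `unfold P; ring`, and `P x x' y y' z z = 0`).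
* `edge_le`: one edge: `|E T t y y' z z'| ≤ √T * G t y y' z z'` where `G` is the length of `(y,y') ∩ (-t-z', -t-z)`:
  `G = max (t+y'+z') 0 - max (t+y+z') 0 - max (t+y'+z) 0 + max (t+y+z) 0`.
  (first `if` true: `G = -(t+y+z) > 0` since then `t+y'+z' = (t+y+z') + (t+y'+z) - (t+y+z)` and all of the first three are positive;
   `f T s = min (s²) T ≤ √T |s|` (as `min(a²,b²) ≤ ab` for `a,b ≥ 0`);  second `if` true: `G = t+y'+z'`; both cannot hold;
   none: `G ≥ 0` always, because `G` is a mixed second difference of a convex function; e.g. case analysis with `y ≤ y'`, `z ≤ z'`.)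
* `sum_E`: `|∑ j<b ∑ k<c E T t (Y j) (Y (j+1)) (Z k) (Z (k+1))| ≤ √T * ∑∑ G = √T * G t (Y 0) (Y b) (Z 0) (Z c) ≤ √T * (Y b - Y 0)`
  (telescoping as for `P`; the last step: `G t y y' z z' ≤ y' - y` for `y ≤ y'`, `z ≤ z'`, since
  `max (t+y'+z') 0 - max (t+y+z') 0 ≤ y' - y` and `max (t+y+z) 0 ≤ max (t+y'+z) 0`).
-/

set_option autoImplicit false

namespace Pool.H67.TS

theorem sum_P (X Y Z : ℕ → ℝ) (a b c : ℕ) :
    ∑ i ∈ Finset.range a, ∑ j ∈ Finset.range b, ∑ k ∈ Finset.range c,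
        P (X i) (X (i + 1)) (Y j) (Y (j + 1)) (Z k) (Z (k + 1))
      = P (X 0) (X a) (Y 0) (Y b) (Z 0) (Z c) := by
  sorry

theorem sum_E {Y Z : ℕ → ℝ} (hY : Monotone Y) (hZ : Monotone Z) (b c : ℕ) {T : ℝ} (hT : 0 ≤ T)
    (t : ℝ) :
    |∑ j ∈ Finset.range b, ∑ k ∈ Finset.range c, E T t (Y j) (Y (j + 1)) (Z k) (Z (k + 1))|
      ≤ √T * (Y b - Y 0) := by
  sorry

end Pool.H67.TS
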