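import Pool.Agent.H67.TS.Defs

/-!
# TypA (elementary inequalities, ~90 lines): triangles, trapezoids, parallelograms, symmetry of `Good`

* `Good.swap`, `Good.rot`: permute the fields.
* `tri`: `(L - 3/8) u² ≥ u² ≥ r²` by `hG.a`.
* `trap`: `(L - 1/8)(u² - (u-A)²)`; `u² - (u-A)² = A (2u - A)`; for `(1-q)r ≤ A ≤ u`, `r ≤ u`:
  `A(2u-A) ≥ (1-q)r (2u - (1-q) r) ≥ (1-q) r (2r - (1-q) r) = r² (1-q²)`
  (first step: `A(2u-A) - B(2u-B) = (A-B)(2u-A-B) ≥ 0` for `B = (1-q)r ≤ A ≤ u`); then `hG.b1`.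
* `para`: `L * (2AB) ≥ 2 L (1-q₁)(1-q₂) r² ≥ r²`.
-/

set_option autoImplicit false

namespace Pool.H67.TS

theorem Good.swap {L q1 q2 q3 : ℝ} (hG : Good L q1 q2 q3) : Good L q2 q1 q3 := by
  sorry

theorem Good.rot {L q1 q2 q3 : ℝ} (hG : Good L q1 q2 q3) : Good L q2 q3 q1 := by
  sorry

theorem tri {L q1 q2 q3 r u : ℝ} (hG : Good L q1 q2 q3) (hr : 0 ≤ r) (hu : r ≤ u) :
    r ^ 2 ≤ (L - 3 / 8) * u ^ 2 := by
  sorry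

theorem trap {L q1 q2 q3 r u A : ℝ} (hG : Good L q1 q2 q3) (hr : 0 ≤ r) (hu : r ≤ u)
    (hA : (1 - q1) * r ≤ A) (hAu : A ≤ u) :
    r ^ 2 ≤ (L - 1 / 8) * (u ^ 2 - (u - A) ^ 2) := by
  sorry

theorem para {L q1 q2 q3 r A B : ℝ} (hG : Good L q1 q2 q3) (hr : 0 ≤ r)
    (hA : (1 - q1) * r ≤ A) (hB : (1 - q2) * r ≤ B) :
    r ^ 2 ≤ L * (2 * A * B) := by
  sorry

end Pool.H67.TS
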