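import Pool.Agent.H67.TS.TypA

/-!
# TypB (elementary inequality): pentagons

Monotonicity of `F(u,p,s) = L (u²-p²-s²) + (p²+s²+(u-p-s)²)/8` in `p, s`, then two cases.
-/

set_option autoImplicit false

namespace Pool.H67.TS

theorem TypB_mono {L u p s p' s' : ℝ} (hL : 1 / 8 ≤ L) (hp : 0 ≤ p) (hs : 0 ≤ s)
    (hpp : p ≤ p') (hss : s ≤ s') (hu : p' + s' ≤ u) :
    L * (u ^ 2 - p' ^ 2 - s' ^ 2) + 1 / 8 * (p' ^ 2 + s' ^ 2 + (u - p' - s') ^ 2) ≤
      L * (u ^ 2 - p ^ 2 - s ^ 2) + 1 / 8 * (p ^ 2 + s ^ 2 + (u - p - s) ^ 2) := by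
  have h1 : p ^ 2 ≤ p' ^ 2 := by nlinarith
  have h2 : s ^ 2 ≤ s' ^ 2 := by nlinarith
  have h3 : (u - p' - s') ^ 2 ≤ (u - p - s) ^ 2 := by nlinarith
  have h4 : 0 ≤ (L - 1 / 8) * ((p' ^ 2 - p ^ 2) + (s' ^ 2 - s ^ 2)) := by
    apply mul_nonneg <;> linarith
  nlinarith

theorem TypB_case {L q1 q2 q3 r τ : ℝ} (hG : Good L q1 q2 q3) (hr : 0 ≤ r)
    (h0 : 0 ≤ τ) (h1 : τ ≤ q3 * r) :
    r ^ 2 ≤ L * (2 * ((1 - q1) * r) * ((1 - q2) * r) - τ ^ 2) +
      1 / 8 * (((1 - q1) * r - τ) ^ 2 + ((1 - q2) * r - τ) ^ 2 + τ ^ 2) := by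
  have hs := hG.s
  have hq3 := hs.h3
  have hsum := hs.sum
  have hL : 3 / 8 ≤ L := by have := hG.a; linarith
  rcases hr.eq_or_lt with hr0 | hr0
  · subst hr0
    have : τ = 0 := by
      have : τ ≤ 0 := by simpa using h1
      linarith
    subst this
    simp
  · have hr2 : 0 ≤ r ^ 2 := by positivity
    have hT : 0 < q3 * r := by positivity
    -- value at zero
    have hF0 : r ^ 2 ≤ L * (2 * ((1 - q1) * r) * ((1 - q2) * r)) +
        1 / 8 * (((1 - q1) * r) ^ 2 + ((1 - q2) * r) ^ 2) := by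
      have h := mul_le_mul_of_nonneg_right hG.c12 hr2
      have e : 2 * L * ((1 - q1) * (1 - q2)) * r ^ 2 =
        L * (2 * ((1 - q1) * r) * ((1 - q2) * r)) := by ring
      have h2 : 0 ≤ ((1 - q1) * r) ^ 2 := sq_nonneg _
      have h3 : 0 ≤ ((1 - q2) * r) ^ 2 := sq_nonneg _
      linarith
    -- value at `q₃ r`
    have hFT : r ^ 2 ≤ L * (2 * ((1 - q1) * r) * ((1 - q2) * r) - (q3 * r) ^ 2) +
        1 / 8 * (((1 - q1) * r - q3 * r) ^ 2 + ((1 - q2) * r - q3 * r) ^ 2 + (q3 * r) ^ 2) := by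
      have h := mul_le_mul_of_nonneg_right hG.d12 hr2
      have e3 : q3 = 1 - q1 - q2 := by linarith
      have e : (L * (1 - q1 ^ 2 - q2 ^ 2) + 1 / 8 * (q1 ^ 2 + q2 ^ 2 + q3 ^ 2)) * r ^ 2 =
        L * (2 * ((1 - q1) * r) * ((1 - q2) * r) - (q3 * r) ^ 2) +
        1 / 8 * (((1 - q1) * r - q3 * r) ^ 2 + ((1 - q2) * r - q3 * r) ^ 2 + (q3 * r) ^ 2) := by
        rw [e3]; ring
      linarith
    have key : (q3 * r) * (r ^ 2) ≤ (q3 * r) *
        (L * (2 * ((1 - q1) * r) * ((1 - q2) * r) - τ ^ 2) +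
      1 / 8 * (((1 - q1) * r - τ) ^ 2 + ((1 - q2) * r - τ) ^ 2 + τ ^ 2)) := by
      have a1 := mul_le_mul_of_nonneg_left hF0 (by linarith : 0 ≤ q3 * r - τ)
      have a2 := mul_le_mul_of_nonneg_left hFT h0
      have a3 : 0 ≤ (q3 * r) * ((L - 3 / 8) * (τ * (q3 * r - τ))) := by
        apply mul_nonneg hT.le
        apply mul_nonneg (by linarith)
        apply mul_nonneg h0 (by linarith)
      nlinarith
    exact le_of_mul_le_mul_left key hT

theorem penta {L q1 q2 q3 r A B τ : ℝ} (hG : Good L q1 q2 q3) (hr : 0 ≤ r)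
    (hA : (1 - q1) * r ≤ A) (hB : (1 - q2) * r ≤ B) (h0 : 0 ≤ τ) (hτA : τ ≤ A) (hτB : τ ≤ B)
    (hu : r ≤ A + B - τ) :
    r ^ 2 ≤ L * (2 * A * B - τ ^ 2) + 1 / 8 * ((A - τ) ^ 2 + (B - τ) ^ 2 + τ ^ 2) := by
  have hs := hG.s
  have hsum := hs.sum
  have hL : 1 / 8 ≤ L := by have := hG.a; linarith
  have hr2 : 0 ≤ r ^ 2 := by positivity
  obtain ⟨a, ha⟩ : ∃ a, a = (1 - q1) * r := ⟨_, rfl⟩
  obtain ⟨b, hb⟩ : ∃ b, b = (1 - q2) * r := ⟨_, rfl⟩
  have hab : 0 ≤ a := by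
    rw [ha]; apply mul_nonneg _ hr; have := hs.h2; have := hs.h3; linarith
  have hbb : 0 ≤ b := by
    rw [hb]; apply mul_nonneg _ hr; have := hs.h1; have := hs.h3; linarith
  have hsumab : a + b = (1 + q3) * r := by
    rw [ha, hb]; have : q3 = 1 - q1 - q2 := by linarith
    rw [this]; ring
  rw [← ha] at hA
  rw [← hb] at hB
  obtain ⟨u, hu'⟩ : ∃ u, u = A + B - τ := ⟨_, rfl⟩
  rw [← hu'] at hu
  have eF : L * (2 * A * B - τ ^ 2) + 1 / 8 * ((A - τ) ^ 2 + (B - τ) ^ 2 + τ ^ 2) =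
      L * (u ^ 2 - (B - τ) ^ 2 - (A - τ) ^ 2) +
        1 / 8 * ((B - τ) ^ 2 + (A - τ) ^ 2 + (u - (B - τ) - (A - τ)) ^ 2) := by
    rw [hu']; ring
  rw [eF]
  rcases le_or_gt u (a + b) with hcase | hcase
  · have hm := TypB_mono (L := L) (u := u) (p := B - τ) (s := A - τ) (p' := u - a) (s' := u - b)
      hL (by linarith) (by linarith) (by linarith) (by linarith) (by linarith)
    refine le_trans ?_ hm
    have hc := TypB_case hG hr (τ := a + b - u) (by linarith) (by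
      have : (1 + q3) * r = r + q3 * r := by ring
      linarith)
    rw [← ha, ← hb] at hc
    have e : L * (u ^ 2 - (u - a) ^ 2 - (u - b) ^ 2) +
        1 / 8 * ((u - a) ^ 2 + (u - b) ^ 2 + (u - (u - a) - (u - b)) ^ 2) =
        L * (2 * a * b - (a + b - u) ^ 2) +
      1 / 8 * ((a - (a + b - u)) ^ 2 + (b - (a + b - u)) ^ 2 + (a + b - u) ^ 2) := by ring
    rw [e]; exact hc
  · obtain ⟨s', hs'⟩ : ∃ s', s' = max a (A - τ) := ⟨_, rfl⟩
    have h1 : a ≤ s' := by rw [hs']; exact le_max_left _ _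
    have h2 : A - τ ≤ s' := by rw [hs']; exact le_max_right _ _
    have h3 : s' ≤ u - b := by rw [hs']; apply max_le <;> linarith
    have h4 : s' ≤ u - (B - τ) := by rw [hs']; apply max_le <;> linarith
    have hm := TypB_mono (L := L) (u := u) (p := B - τ) (s := A - τ) (p' := u - s') (s' := s')
      hL (by linarith) (by linarith) (by linarith) (by linarith) (by linarith)
    refine le_trans ?_ hm
    have hc := mul_le_mul_of_nonneg_right hG.c12 hr2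
    have e1 : 2 * L * ((1 - q1) * (1 - q2)) * r ^ 2 = 2 * L * (a * b) := by
      rw [ha, hb]; ring
    have h5 : a * b ≤ s' * (u - s') := by
      apply mul_le_mul h1 (by linarith) hbb (by linarith)
    have h6 : 2 * L * (a * b) ≤ 2 * L * (s' * (u - s')) := by
      apply mul_le_mul_of_nonneg_left h5; linarith
    have h7 : 0 ≤ (u - s') ^ 2 := sq_nonneg _
    have h8 : 0 ≤ s' ^ 2 := sq_nonneg _
    have h9 : 0 ≤ (u - (u - s') - s') ^ 2 := sq_nonneg _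
    have e2 : L * (u ^ 2 - (u - s') ^ 2 - s' ^ 2) = 2 * L * (s' * (u - s')) := by ring
    linarith

end Pool.H67.TS
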