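import Pool.Agent.H67.TS.TypB

/-!
# TypC (elementary inequality, ~100 lines): hexagons

`S = A + B + C = u + v`.  The right side is
`H(u) = L (2uv - A²-B²-C²) + (S² - 6uv + 2(A²+B²+C²))/8 = (2L - 3/4) u v - (L - 1/4)(A²+B²+C²) + S²/8`
(with `v = S - u`; the expression is symmetric in `u ↔ v` since `u² - Σ(u-A)² = 2uv - ΣA²`).
WLOG `u ≤ v` (replace `u` by `v`; both hypotheses sets are symmetric; note
`v² - Σ(v-A)² = u² - Σ(u-A)²` by `ring` after `v = S - u`).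

Let `u₀ = max(r, A, B, C) ≤ u` (so `u₀ ≤ u ≤ v ≤ S - u₀`): `u v ≥ u₀ (S - u₀)` because
`uv - u₀(S-u₀) = (u-u₀)(S-u-u₀) ≥ 0`, and `2L - 3/4 ≥ 0`, so it suffices to treat `u = u₀`.
* `u₀ = r` (then `A,B,C ≤ r`): `H = (2L-3/4) r (S - r) - (L-1/4) ΣA² + S²/8` is increasing in each of `A,B,C ∈ [0,r]` as long as
  `S ≥ 2 r`: e.g. replacing `A` by `A₀ = (1-q₁) r ≤ A`: difference
  `(A-A₀) [ (2L-3/4) r - (L-1/4)(A+A₀) + (2S - (A - A₀))/8 ]`, and the bracket is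
  `= L(2r - A - A₀) - (3/4) r + (A+A₀)/4 + (2S-(A-A₀))/8 ≥ (11/8)(2r-A-A₀) - 3r/4 + (A+A₀)/4 + (2S - (A-A₀))/8`; with
  `A, A₀ ≤ r`, `S ≥ 2r` (sum of the lower bounds is `(3 - 1) r = 2r`): `≥ 0`.
  At `A = (1-q₁)r, B = (1-q₂) r, C = (1-q₃) r` (`S = 2r`): `H = r² (L (1-Σq²) + Σq²/4) ≥ r²` by `hG.e`.
  (You may do it in one go: `nlinarith` is not needed; three monotonicity steps.)
* `u₀ = C` (largest, `C ≥ r`; the cases `A`, `B` by symmetry `Good.swap/rot`): `u = C`, `u - C = 0`, `v = A + B`, and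
  the right side is `≥ L(C² - (C-A)² - (C-B)²) + ((C-A)² + (C-B)² + (v-C)²)/8`, which is `penta` with `τ = A + B - C`
  (`= v - C ≥ 0`, `A - τ = C - B ≥ 0`, `B - τ = C - A ≥ 0`, `A + B - τ = C ≥ r`;
   `C² - (C-A)² - (C-B)² = 2AB - τ²`).
-/

set_option autoImplicit false

namespace Pool.H67.TS

theorem TypC_red {L u v A B C w : ℝ} (hL : 11 / 8 ≤ L) (hs : u + v = A + B + C)
    (h1 : w ≤ u) (h2 : w ≤ v) :
    (2 * L - 3 / 4) * (w * (A + B + C - w)) - (L - 1 / 4) * (A ^ 2 + B ^ 2 + C ^ 2)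
      + (A + B + C) ^ 2 / 8 ≤ L * (u ^ 2 - (u - A) ^ 2 - (u - B) ^ 2 - (u - C) ^ 2)
      + 1 / 8 * ((u - A) ^ 2 + (u - B) ^ 2 + (u - C) ^ 2
        + (v - A) ^ 2 + (v - B) ^ 2 + (v - C) ^ 2) := by
  have hv : v = A + B + C - u := by linarith
  have hp : 0 ≤ (2 * L - 3 / 4) * ((u - w) * (v - w)) :=
    mul_nonneg (by linarith) (mul_nonneg (by linarith) (by linarith))
  subst hv
  nlinarith [hp]

theorem TypC_mono {L r A A₀ T : ℝ} (hL : 11 / 8 ≤ L) (hr : 0 ≤ r) (hA : A₀ ≤ A) (hAr : A ≤ r)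
    (hT : 2 * r ≤ A + T) (K : ℝ) :
    (2 * L - 3 / 4) * (r * (A₀ + T - r)) - (L - 1 / 4) * (A₀ ^ 2 + K) + (A₀ + T) ^ 2 / 8 ≤
      (2 * L - 3 / 4) * (r * (A + T - r)) - (L - 1 / 4) * (A ^ 2 + K) + (A + T) ^ 2 / 8 := by
  have h1 : 0 ≤ (L - 11 / 8) * (2 * r - A - A₀) :=
    mul_nonneg (by linarith) (by linarith)
  have h2 : 0 ≤ (2 * L - 3 / 4) * r - (L - 1 / 4) * (A + A₀) + (2 * (A + T) - (A - A₀)) / 8 := by
    nlinarith [h1]
  have h3 := mul_nonneg (sub_nonneg.2 hA) h2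
  nlinarith [h3]

theorem TypC_pent {L q1 q2 q3 r A B C : ℝ} (hG : Good L q1 q2 q3) (hr : 0 ≤ r)
    (hA : (1 - q1) * r ≤ A) (hB : (1 - q2) * r ≤ B) (h1 : A ≤ C) (h2 : B ≤ C) (h3 : r ≤ C)
    (h4 : C ≤ A + B) :
    r ^ 2 ≤ (2 * L - 3 / 4) * (C * (A + B + C - C)) - (L - 1 / 4) * (A ^ 2 + B ^ 2 + C ^ 2)
      + (A + B + C) ^ 2 / 8 := by
  have h := penta (τ := A + B - C) hG hr hA hB (by linarith) (by linarith) (by linarith)
    (by linarith)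
  nlinarith [h, sq_nonneg A, sq_nonneg B]

theorem hexa {L q1 q2 q3 r u v A B C : ℝ} (hG : Good L q1 q2 q3) (hr : 0 ≤ r)
    (hA : (1 - q1) * r ≤ A) (hB : (1 - q2) * r ≤ B) (hC : (1 - q3) * r ≤ C)
    (hu : r ≤ u) (hv : r ≤ v) (hs : u + v = A + B + C)
    (hAu : A ≤ u) (hBu : B ≤ u) (hCu : C ≤ u) (hAv : A ≤ v) (hBv : B ≤ v) (hCv : C ≤ v) :
    r ^ 2 ≤ L * (u ^ 2 - (u - A) ^ 2 - (u - B) ^ 2 - (u - C) ^ 2)
      + 1 / 8 * ((u - A) ^ 2 + (u - B) ^ 2 + (u - C) ^ 2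
        + (v - A) ^ 2 + (v - B) ^ 2 + (v - C) ^ 2) := by
  have hL : 11 / 8 ≤ L := hG.a
  by_cases h : A ≤ r ∧ B ≤ r ∧ C ≤ r
  · obtain ⟨hAr, hBr, hCr⟩ := h
    refine le_trans ?_ (TypC_red hL hs hu hv)
    have hq := hG.s.sum
    have e1 := TypC_mono (T := B + C) hL hr hA hAr (by nlinarith) (B ^ 2 + C ^ 2)
    have e2 := TypC_mono (T := (1 - q1) * r + C) hL hr hB hBr (by nlinarith)
      (((1 - q1) * r) ^ 2 + C ^ 2)
    have e3 := TypC_mono (T := (1 - q1) * r + (1 - q2) * r) hL hr hC hCr (by nlinarith)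
      (((1 - q1) * r) ^ 2 + ((1 - q2) * r) ^ 2)
    have he := hG.e
    have h0 : r ^ 2 ≤ r ^ 2 * (L * (1 - q1 ^ 2 - q2 ^ 2 - q3 ^ 2)
        + 1 / 4 * (q1 ^ 2 + q2 ^ 2 + q3 ^ 2)) := by
      have := mul_le_mul_of_nonneg_left he (sq_nonneg r)
      linarith
    have h3 : q3 = 1 - q1 - q2 := by linarith
    subst h3
    have hb : (2 * L - 3 / 4) * (r * ((1 - (1 - q1 - q2)) * r + ((1 - q1) * r + (1 - q2) * r) - r))
        - (L - 1 / 4) * (((1 - (1 - q1 - q2)) * r) ^ 2 +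
          (((1 - q1) * r) ^ 2 + ((1 - q2) * r) ^ 2))
        + ((1 - (1 - q1 - q2)) * r + ((1 - q1) * r + (1 - q2) * r)) ^ 2 / 8 =
        r ^ 2 * (L * (1 - q1 ^ 2 - q2 ^ 2 - (1 - q1 - q2) ^ 2)
        + 1 / 4 * (q1 ^ 2 + q2 ^ 2 + (1 - q1 - q2) ^ 2)) := by ring
    have c1 : (2 * L - 3 / 4) * (r * (A + (B + C) - r)) - (L - 1 / 4) * (A ^ 2 + (B ^ 2 + C ^ 2))
        + (A + (B + C)) ^ 2 / 8 = (2 * L - 3 / 4) * (r * (A + B + C - r))
        - (L - 1 / 4) * (A ^ 2 + B ^ 2 + C ^ 2) + (A + B + C) ^ 2 / 8 := by ring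
    have c2 : (2 * L - 3 / 4) * (r * ((1 - q1) * r + (B + C) - r))
        - (L - 1 / 4) * (((1 - q1) * r) ^ 2 + (B ^ 2 + C ^ 2))
        + ((1 - q1) * r + (B + C)) ^ 2 / 8 = (2 * L - 3 / 4) * (r * (B + ((1 - q1) * r + C) - r))
        - (L - 1 / 4) * (B ^ 2 + (((1 - q1) * r) ^ 2 + C ^ 2))
        + (B + ((1 - q1) * r + C)) ^ 2 / 8 := by ring
    have c3 : (2 * L - 3 / 4) * (r * ((1 - q2) * r + ((1 - q1) * r + C) - r))
        - (L - 1 / 4) * (((1 - q2) * r) ^ 2 + (((1 - q1) * r) ^ 2 + C ^ 2))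
        + ((1 - q2) * r + ((1 - q1) * r + C)) ^ 2 / 8 =
        (2 * L - 3 / 4) * (r * (C + ((1 - q1) * r + (1 - q2) * r) - r))
        - (L - 1 / 4) * (C ^ 2 + (((1 - q1) * r) ^ 2 + ((1 - q2) * r) ^ 2))
        + (C + ((1 - q1) * r + (1 - q2) * r)) ^ 2 / 8 := by ring
    linarith
  · have hmax : (A ≤ C ∧ B ≤ C) ∨ (A ≤ B ∧ C ≤ B) ∨ (B ≤ A ∧ C ≤ A) := by
      rcases le_total A B with h1 | h1 <;> rcases le_total B C with h2 | h2 <;>
        rcases le_total A C with h3 | h3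
      · exact Or.inl ⟨h3, h2⟩
      · exact Or.inl ⟨h1.trans h2, h2⟩
      · exact Or.inr (Or.inl ⟨h1, h2⟩)
      · exact Or.inr (Or.inl ⟨h1, h2⟩)
      · exact Or.inl ⟨h3, h2⟩
      · exact Or.inr (Or.inr ⟨h1, h3⟩)
      · exact Or.inr (Or.inr ⟨h1, h2.trans h1⟩)
      · exact Or.inr (Or.inr ⟨h1, h3⟩)
    rcases hmax with ⟨h1, h2⟩ | ⟨h1, h2⟩ | ⟨h1, h2⟩
    · have h3 : r ≤ C := by
        by_contra hc
        push Not at hc
        exact h ⟨by linarith, by linarith, by linarith⟩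
      refine le_trans ?_ (TypC_red hL hs hCu hCv)
      exact TypC_pent hG hr hA hB h1 h2 h3 (by linarith)
    · have h3 : r ≤ B := by
        by_contra hc
        push Not at hc
        exact h ⟨by linarith, by linarith, by linarith⟩
      refine le_trans ?_ (TypC_red hL hs hBu hBv)
      have := TypC_pent (C := B) hG.rot.rot hr hC hA h2 h1 h3 (by linarith)
      linarith
    · have h3 : r ≤ A := by
        by_contra hc
        push Not at hc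
        exact h ⟨by linarith, by linarith, by linarith⟩
      refine le_trans ?_ (TypC_red hL hs hAu hAv)
      have := TypC_pent (C := A) hG.rot hr hB hC h1 h2 h3 (by linarith)
      linarith

end Pool.H67.TS
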