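import Pool.Agent.H67.TS.Defs

/-!
# Vol (~150 lines): area, measurability and diameter of a window

`Win m0 m1 l0 l1 a b w` is the preimage of the half-open square `[a,a+w) × [b,b+w)` under the linear map
`A x = (l0 ⟪m0,x⟫, l1 ⟪m1,x⟫)` of the plane, with determinant `l0 * l1 * D`, `D = m0 0 * m1 1 - m0 1 * m1 0`.
* `vol_win`: `volume = w² / |l0 l1 D|`.  Use `MeasureTheory.Measure.addHaar_preimage_linearMap` (μ (f ⁻¹' s) = ofReal |(det f)⁻¹| * μ s) for
  `f : Plane →ₗ[ℝ] Plane` and the box `{x | a ≤ x 0 < a + w ∧ b ≤ x 1 < b + w}` of volume `w²`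
  (`(EuclideanSpace.volume_preserving_symm_measurableEquiv_toLp (Fin 2))` / `volume_preserving_measurableEquiv`, `Real.volume_pi_Ico`,
  `Fin.prod_univ_two`).  The determinant: `f = Matrix.toLin'`-like in the standard basis, or `LinearMap.det_toLin`; for instance define
  `f` on `Fin 2 → ℝ` by `Matrix.toLin' !![l0*m0 0, l0*m0 1; l1*m1 0, l1*m1 1]`, `LinearMap.det_toLin'`, `Matrix.det_fin_two_of`, use
  `MeasureTheory.Measure.addHaar_preimage_linearMap` (or `Real.map_matrix_volume_pi_eq_smul_volume_pi`) there and transport by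
  the volume preserving equivalence at the start.
* `meas_win`: continuity.
* `diam_win`: if `|l0⟪m0,x-y⟫| ≤ w` and `|l1⟪m1,x-y⟫| ≤ w` then `‖x - y‖ ≤ ρ` with `ρ` depending only on `m, l, w`: solve the `2×2` system by
  Cramer's rule: for `z = x - y`, `p = ⟪m0,z⟫ = m0 0 z 0 + m0 1 z 1`, `s = ⟪m1,z⟫`: `D z 0 = p m1 1 - s m0 1`, `D z 1 = s m0 0 - p m1 0`, so
  `|z i| ≤ (|p| + |s|) / |D|` (unit vectors have coordinates `≤ 1` in absolute value), `‖z‖ ≤ |z 0| + |z 1|`.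
-/

set_option autoImplicit false

open MeasureTheory Metric

namespace Pool.H67.TS

private theorem Vol_inner (m x : Plane) : inner ℝ m x = m 0 * x 0 + m 1 * x 1 := by
  rw [PiLp.inner_apply, Fin.sum_univ_two]
  simp only [RCLike.inner_apply, conj_trivial]
  ring

theorem vol_win (m0 m1 : Plane) (l0 l1 a b w : ℝ) (hw : 0 ≤ w)
    (hD : l0 * l1 * (m0 0 * m1 1 - m0 1 * m1 0) ≠ 0) :
    volume (Win m0 m1 l0 l1 a b w)
      = ENNReal.ofReal (w ^ 2 / |l0 * l1 * (m0 0 * m1 1 - m0 1 * m1 0)|) := by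
  let A : Matrix (Fin 2) (Fin 2) ℝ := !![l0 * m0 0, l0 * m0 1; l1 * m1 0, l1 * m1 1]
  have hA0 : ∀ y : Fin 2 → ℝ, Matrix.toLin' A y 0 = l0 * (m0 0 * y 0 + m0 1 * y 1) := by
    intro y
    simp [A, Matrix.toLin'_apply, Matrix.mulVec, dotProduct, Fin.sum_univ_two]
    ring
  have hA1 : ∀ y : Fin 2 → ℝ, Matrix.toLin' A y 1 = l1 * (m1 0 * y 0 + m1 1 * y 1) := by
    intro y
    simp [A, Matrix.toLin'_apply, Matrix.mulVec, dotProduct, Fin.sum_univ_two]
    ring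
  have hdet : LinearMap.det (Matrix.toLin' A) = l0 * l1 * (m0 0 * m1 1 - m0 1 * m1 0) := by
    rw [LinearMap.det_toLin', Matrix.det_fin_two_of]
    ring
  have hbox : MeasurableSet (Set.pi Set.univ
      (fun i : Fin 2 => Set.Ico (![a, b] i) (![a + w, b + w] i))) :=
    MeasurableSet.univ_pi fun i => measurableSet_Ico
  have hpre : Win m0 m1 l0 l1 a b w = (WithLp.ofLp : Plane → (Fin 2 → ℝ)) ⁻¹'
      ((Matrix.toLin' A) ⁻¹' (Set.pi Set.univ
        (fun i : Fin 2 => Set.Ico (![a, b] i) (![a + w, b + w] i)))) := by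
    ext x
    simp only [Win, Set.mem_ofPred_eq, Set.mem_preimage, Set.mem_pi, Set.mem_univ, true_implies,
      Fin.forall_fin_two, hA0, hA1, Set.mem_Ico, Vol_inner]
    rfl
  have hmeas : MeasurableSet ((Matrix.toLin' A) ⁻¹' (Set.pi Set.univ
        (fun i : Fin 2 => Set.Ico (![a, b] i) (![a + w, b + w] i)))) :=
    (LinearMap.continuous_of_finiteDimensional (Matrix.toLin' A)).measurable hbox
  rw [hpre, (PiLp.volume_preserving_ofLp (Fin 2)).measure_preimage hmeas.nullMeasurableSet,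
    MeasureTheory.Measure.addHaar_preimage_linearMap _ (by rw [hdet]; exact hD), hdet,
    Real.volume_pi_Ico, Fin.prod_univ_two]
  simp only [Matrix.cons_val_zero, Matrix.cons_val_one, add_sub_cancel_left]
  rw [← ENNReal.ofReal_mul hw, ← ENNReal.ofReal_mul (abs_nonneg _)]
  congr 1
  rw [abs_inv]
  ring

theorem meas_win (m0 m1 : Plane) (l0 l1 a b w : ℝ) :
    MeasurableSet (Win m0 m1 l0 l1 a b w) := by
  have h1 : Continuous fun x : Plane => l0 * inner ℝ m0 x := by fun_prop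
  have h2 : Continuous fun x : Plane => l1 * inner ℝ m1 x := by fun_prop
  exact ((measurableSet_le measurable_const h1.measurable).inter
    (measurableSet_lt h1.measurable measurable_const)).inter
    ((measurableSet_le measurable_const h2.measurable).inter
    (measurableSet_lt h2.measurable measurable_const))

theorem diam_win (m0 m1 : Plane) (l0 l1 w : ℝ)
    (hD : l0 * l1 * (m0 0 * m1 1 - m0 1 * m1 0) ≠ 0) :
    ∃ ρ : ℝ, 0 ≤ ρ ∧ ∀ a b : ℝ, ∀ x ∈ Win m0 m1 l0 l1 a b w, ∀ y ∈ Win m0 m1 l0 l1 a b w,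
      dist x y ≤ ρ := by
  obtain ⟨D, hDd⟩ : ∃ D, D = m0 0 * m1 1 - m0 1 * m1 0 := ⟨_, rfl⟩
  rw [← hDd] at hD
  have hl0 : l0 ≠ 0 := by rintro rfl; simp at hD
  have hl1 : l1 ≠ 0 := by rintro rfl; simp at hD
  have hD0 : D ≠ 0 := by rintro rfl; simp at hD
  refine ⟨(|w| / |l0| * (|m1 1| + |m1 0|) + |w| / |l1| * (|m0 1| + |m0 0|)) / |D|,
    by positivity, ?_⟩
  intro a b x hx y hy
  obtain ⟨⟨x1, x2⟩, x3, x4⟩ := hx
  obtain ⟨⟨y1, y2⟩, y3, y4⟩ := hy
  rw [Vol_inner] at x1 x2 x3 x4 y1 y2 y3 y4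
  obtain ⟨z0, hz0⟩ : ∃ z0, z0 = x 0 - y 0 := ⟨_, rfl⟩
  obtain ⟨z1, hz1⟩ : ∃ z1, z1 = x 1 - y 1 := ⟨_, rfl⟩
  have hp : |m0 0 * z0 + m0 1 * z1| ≤ |w| / |l0| := by
    rw [le_div_iff₀ (abs_pos.2 hl0), ← abs_mul]
    have e : (m0 0 * z0 + m0 1 * z1) * l0 =
        l0 * (m0 0 * x 0 + m0 1 * x 1) - l0 * (m0 0 * y 0 + m0 1 * y 1) := by
      rw [hz0, hz1]
      ring
    rw [e]
    refine (abs_le.2 ⟨?_, ?_⟩).trans (le_abs_self w) <;> linarith
  have hs : |m1 0 * z0 + m1 1 * z1| ≤ |w| / |l1| := by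
    rw [le_div_iff₀ (abs_pos.2 hl1), ← abs_mul]
    have e : (m1 0 * z0 + m1 1 * z1) * l1 =
        l1 * (m1 0 * x 0 + m1 1 * x 1) - l1 * (m1 0 * y 0 + m1 1 * y 1) := by
      rw [hz0, hz1]
      ring
    rw [e]
    refine (abs_le.2 ⟨?_, ?_⟩).trans (le_abs_self w) <;> linarith
  have hn : dist x y ≤ |z0| + |z1| := by
    rw [EuclideanSpace.dist_eq, Fin.sum_univ_two, Real.sqrt_le_iff]
    refine ⟨by positivity, ?_⟩
    rw [Real.dist_eq, Real.dist_eq, ← hz0, ← hz1]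
    have := mul_nonneg (abs_nonneg z0) (abs_nonneg z1)
    nlinarith
  refine hn.trans ?_
  rw [le_div_iff₀ (abs_pos.2 hD0), add_mul, ← abs_mul, ← abs_mul]
  have g0 : z0 * D = (m0 0 * z0 + m0 1 * z1) * m1 1 - (m1 0 * z0 + m1 1 * z1) * m0 1 := by
    rw [hDd]
    ring
  have g1 : z1 * D = (m1 0 * z0 + m1 1 * z1) * m0 0 - (m0 0 * z0 + m0 1 * z1) * m1 0 := by
    rw [hDd]
    ring
  rw [g0, g1]
  have k0 := abs_sub ((m0 0 * z0 + m0 1 * z1) * m1 1) ((m1 0 * z0 + m1 1 * z1) * m0 1)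
  have k1 := abs_sub ((m1 0 * z0 + m1 1 * z1) * m0 0) ((m0 0 * z0 + m0 1 * z1) * m1 0)
  rw [abs_mul, abs_mul] at k0 k1
  have j1 := mul_le_mul_of_nonneg_right hp (abs_nonneg (m1 1))
  have j2 := mul_le_mul_of_nonneg_right hs (abs_nonneg (m0 1))
  have j3 := mul_le_mul_of_nonneg_right hs (abs_nonneg (m0 0))
  have j4 := mul_le_mul_of_nonneg_right hp (abs_nonneg (m1 0))
  linarith

end Pool.H67.TS
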