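import Pool.Agent.H67.TS.Core
import Pool.Agent.H67.TS.Proj
import Pool.Agent.H67.TS.DensLim

/-!
# Window (~200 lines): area of the discs in one window

`l_i = (1 - q i)/2`, `l₀ + l₁ + l₂ = 1`, `0 < l_i < 1/2`; `H_i x = l_i ⟪m i, x⟫`, `H₀ + H₁ + H₂ = 0` (from `Frame.rel`), so
`α k = H₀ (c k)`, `β k = H₁ (c k)`, `γ k = H₂ (c k)`.
`U = ⋃ closedBall (c k) (r k)`, `W = Win (m 0) (m 1) l₀ l₁ a b w`, `w > 4 M`, `W' = Win (m 0) (m 1) l₀ l₁ (a+2M) (b+2M) (w-4M) ⊆ W`.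

* `finite_bound`: if `F` is a finite set of indices whose discs satisfy `a ≤ α k - l₀ r k`, `α k + l₀ r k ≤ a + w` and the same for `β`, then
  `∑_{k∈F} r k² ≤ Λ 2w² + 3Mw`: this is `core` (`hsep`: `SeparableIn` gives family and `t`; `separates_smul` with `Frame.par`, `sepNum_of`).
* `window_bound`: Let `K` be the set of indices `k` whose disc satisfies these window inequalities.
  (i) `U ∩ W ⊆ (⋃_{k∈K} closedBall (c k) (r k)) ∪ (W \ W')`: if `x ∈ W' ∩ closedBall (c k) (r k)`, then `k ∈ K`, since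
      `|H₀(c k) - H₀ x| ≤ l₀ ‖c k - x‖ ≤ l₀ r k ≤ M/2`, so `H₀(c k) - l₀ r k ≥ H₀ x - 2 l₀ r k ≥ a + 2M - M ≥ a`, etc.
  (ii) `K` is countable: the open balls are nonempty, open and pairwise disjoint (`IsPacking`): `Set.PairwiseDisjoint.countable_of_isOpen`.
  (iii) `volume (⋃_{k∈K} closedBall) ≤ ∑'_{k∈K} volume (closedBall (c k) (r k)) = ∑' ofReal (π r k²) ≤ ofReal (π (Λ 2w² + 3Mw))`: every finite partial sum
      is bounded by `finite_bound` (`ENNReal.tsum_eq_iSup_sum`, `iSup_le`; finite sums over `Finset ↥K` are mapped to `Finset ι` by `Finset.map (Function.Embedding.subtype _)`;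
      `ENNReal.ofReal_sum_of_nonneg`; `EuclideanSpace.volume_closedBall_fin_two`).
  (iv) `volume (W \ W') = volume W - volume W' = ofReal ((w² - (w-4M)²) * 2/√(q₀q₁q₂)) ≤ ofReal (16 M w/√(q₀q₁q₂))`, as `|l₀l₁D| = √(q₀q₁q₂)/2` by `Frame.det`.
  (v) `π Λ 2w² = (11π/(24√3)) * (2w²/√(q₀q₁q₂)) = δ volume W`.
  So `volume (U ∩ W) ≤ ofReal (δ V + 3πMw + 16Mw/√(q₀q₁q₂))`, `V = 2w²/√(q₀q₁q₂) = volume W`, and
  `3πMw + 16Mw/√(q₀q₁q₂) ≤ ε V` as soon as `w ≥ (3πM √(q₀q₁q₂) + 16 M)/(2ε)`.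
-/

set_option autoImplicit false

open MeasureTheory Metric Filter

namespace Pool.H67.TS

theorem finite_bound {ι : Type*} {c : ι → Plane} {r : ι → ℝ} (hp : IsPacking c r) {M : ℝ}
    (hM : ∀ i, r i ≤ M) (hM0 : 0 ≤ M) {n m : Fin 3 → Plane} {q : Fin 3 → ℝ} (hF : Frame n m q)
    (hs : SeparableIn n c r) {a b w : ℝ} (hw : 0 < w) (F : Finset ι)
    (hα : ∀ i ∈ F, a ≤ (1 - q 0) / 2 * inner ℝ (m 0) (c i) - (1 - q 0) / 2 * r i ∧
      (1 - q 0) / 2 * inner ℝ (m 0) (c i) + (1 - q 0) / 2 * r i ≤ a + w)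
    (hβ : ∀ i ∈ F, b ≤ (1 - q 1) / 2 * inner ℝ (m 1) (c i) - (1 - q 1) / 2 * r i ∧
      (1 - q 1) / 2 * inner ℝ (m 1) (c i) + (1 - q 1) / 2 * r i ≤ b + w) :
    ∑ i ∈ F, r i ^ 2 ≤ Lam (q 0) (q 1) (q 2) * (2 * w ^ 2) + 3 * M * w := by
  sorry

theorem window_bound {ι : Type*} {c : ι → Plane} {r : ι → ℝ} (hp : IsPacking c r) {M : ℝ}
    (hM : ∀ i, r i ≤ M) (hM0 : 0 ≤ M) {n m : Fin 3 → Plane} {q : Fin 3 → ℝ} (hF : Frame n m q)
    (hs : SeparableIn n c r) {ε : ℝ} (hε : 0 < ε) :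
    ∃ w : ℝ, 0 < w ∧ ∀ a b : ℝ,
      volume ((⋃ i, closedBall (c i) (r i)) ∩
        Win (m 0) (m 1) ((1 - q 0) / 2) ((1 - q 1) / 2) a b w)
      ≤ ENNReal.ofReal (11 * Real.pi / (24 * √3) + ε) *
        volume (Win (m 0) (m 1) ((1 - q 0) / 2) ((1 - q 1) / 2) a b w) := by
  sorry

end Pool.H67.TS
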